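import Pool.Agent.H17.CB.Def
import Pool.Agent.H27.GW.MB

/-!
# The coding is Borel and equivariant
-/

set_option autoImplicit false

namespace Pool.H17.CB

open Set Pool.H62.VT Pool.H63.MQ Pool.H22.CO Pool.H27.SP

variable {a : ℕ → ℕ} {k : ℕ}

/-! ### Equivariance -/

section perm

open Pool.H27.GW

variable {σ : Equiv.Perm ℕ}

/-- tuples -/
private abbrev pt (σ : Equiv.Perm ℕ) (m : ℕ) : (Fin m → ℕ) ≃ (Fin m → ℕ) :=
  Equiv.piCongrRight fun _ => σ

private theorem pi_perm1 {M M' : Str a} {p p' : Pos} (h : Mp σ M M')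
    (hp : ∀ u v, (u, v) ∈ p ↔ (σ u, σ v) ∈ p') (h1 : PI M M p) : PI M' M' p' := by
  have key : ∀ w : ℕ × ℕ, w ∈ p' → (σ.symm w.1, σ.symm w.2) ∈ p := by
    rintro ⟨u, v⟩ hw
    rw [hp]
    simpa using hw
  constructor
  · intro n t ht
    have h2 := h1.1 n (fun i => (σ.symm (t i).1, σ.symm (t i).2)) (fun i => key _ (ht i))
    have h3 := h n (fun i => σ.symm (t i).1)
    have h4 := h n (fun i => σ.symm (t i).2)
    simp only [Equiv.apply_symm_apply] at h3 h4
    rw [h3, h4]
    exact h2
  · intro q hq r hr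
    have h2 := h1.2 _ (key q hq) _ (key r hr)
    simpa using h2

private theorem pi_perm {M M' : Str a} {p p' : Pos} (h : Mp σ M M')
    (hp : ∀ u v, (u, v) ∈ p ↔ (σ u, σ v) ∈ p') : PI M M p ↔ PI M' M' p' := by
  refine ⟨pi_perm1 h hp, pi_perm1 (mp_symm h) fun u v => ?_⟩
  rw [hp]
  simp

private theorem nu_perm {x x' : Str a} (h : Mp σ x x') : Mp σ (nu x) (nu x') := by
  intro n t
  unfold nu
  rw [h n t]
  simp

private theorem cfR_perm {M M' : Str a} {E E' : Set ℕ} {s l : ℕ} (h : Mp σ M M')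
    (hE : ∀ y, y ∈ E ↔ σ y ∈ E') (u v : Fin s → ℕ) (w : Fin l → ℕ) (q q' : Fin s → ℕ) :
    CfR M E u v w q q' ↔ CfR M' E' (fun d => σ (u d)) (fun d => σ (v d)) (fun d => σ (w d))
      (fun d => σ (q d)) (fun d => σ (q' d)) := by
  unfold CfR
  refine (pt σ l).exists_congr fun z => pi_perm h fun x y => ?_
  simp only [mem_union, idOn, mem_ofPred_eq, Prod.mk.injEq, Equiv.piCongrRight_apply, Pi.map_apply,
    EmbeddingLike.apply_eq_iff_eq, hE]

variable {s : Sh k} {c : Fin k → ℕ} {M M' : Str a}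

private theorem ee_perm (y : ℕ) : y ∈ EE s c ↔ σ y ∈ EE s (fun i => σ (c i)) := by
  simp [EE]

private theorem e0_perm (y : ℕ) : y ∈ E0 s c ↔ σ y ∈ E0 s (fun i => σ (c i)) := by
  simp [E0]

private theorem cf_perm (h : Mp σ M M') (j : Fin s.n1) (q q' : Fin (s.s1 j) → ℕ) :
    Cf s M c j q q' ↔ Cf s M' (fun i => σ (c i)) j (fun d => σ (q d)) (fun d => σ (q' d)) :=
  cfR_perm h ee_perm _ _ _ _ _

private theorem a1_perm (h : Mp σ M M') (j : Fin s.n1) (q : Fin (s.s1 j) → ℕ) :
    A1 s M c j q ↔ A1 s M' (fun i => σ (c i)) j (fun d => σ (q d)) := by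
  unfold A1
  exact (pt σ _).exists_congr fun q' => or_congr (cf_perm h j q q') (cf_perm h j q' q)

private theorem o1_perm (h : Mp σ M M') (j : Fin s.n1) (p p' : ℕ) :
    O1 s M c j p p' ↔ O1 s M' (fun i => σ (c i)) j (σ p) (σ p') := by
  unfold O1
  refine (pt σ _).exists_congr fun q => (pt σ _).exists_congr fun q' =>
    and_congr (cf_perm h j q q') ?_
  simp

private theorem dd_perm (h : Mp σ M M') (y : ℕ) :
    y ∈ DD s M c ↔ σ y ∈ DD s M' (fun i => σ (c i)) := by
  unfold DD
  simp only [mem_ofPred_eq]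
  refine and_congr (not_congr (e0_perm y)) (forall_congr' fun j => (pt σ _).forall_congr
    fun q => imp_congr (a1_perm h j q) ?_)
  simp

private theorem choose_congr {α : Type} {p p' : α → Prop} (e : p = p') (h : ∃ x, p x)
    (h' : ∃ x, p' x) : h.choose = h'.choose := by
  subst e
  rfl

private theorem swf_perm {m : ℕ} (z q : Fin m → ℕ) (x : ℕ) :
    swf (fun d => σ (z d)) (fun d => σ (q d)) (σ x) = σ (swf z q x) := by
  have e : ∀ w : Fin m → ℕ, (fun d => σ x = σ (w d)) = fun d => x = w d := fun w =>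
    funext fun d => propext σ.injective.eq_iff
  unfold swf
  by_cases h1 : ∃ d, x = z d
  · have h1' : ∃ d, σ x = σ (z d) := h1.imp fun d hd => congrArg σ hd
    rw [dif_pos h1, dif_pos h1', choose_congr (e z) h1' h1]
  · have h1' : ¬ ∃ d, σ x = σ (z d) := fun h => h1 (h.imp fun d hd => σ.injective hd)
    rw [dif_neg h1, dif_neg h1']
    by_cases h2 : ∃ d, x = q d
    · have h2' : ∃ d, σ x = σ (q d) := h2.imp fun d hd => congrArg σ hd
      rw [dif_pos h2, dif_pos h2', choose_congr (e q) h2' h2]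
    · have h2' : ¬ ∃ d, σ x = σ (q d) := fun h => h2 (h.imp fun d hd => σ.injective hd)
      rw [dif_neg h2, dif_neg h2']

private theorem a2_perm (h : Mp σ M M') (j : Fin s.n2) (q : Fin (s.s2 j) → ℕ) :
    A2 s M c j q ↔ A2 s M' (fun i => σ (c i)) j (fun d => σ (q d)) := by
  unfold A2 AsQ
  refine and_congr (σ.injective.of_comp_iff q).symm (and_congr (forall_congr' fun d =>
    dd_perm h (q d)) (and_congr ?_ (forall_congr' fun n => (pt σ _).forall_congr fun t => ?_)))
  · simp
  · have e1 := h n t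
    have e2 := h n fun i => swf (fun d => c (s.z j d)) q (t i)
    have e3 : (fun i => σ (swf (fun d => c (s.z j d)) q (t i))) =
        fun i => swf (fun d => σ (c (s.z j d))) (fun d => σ (q d)) (σ (t i)) :=
      funext fun i => (swf_perm _ _ _).symm
    rw [e3] at e2
    rw [← e1, ← e2]
    rfl

private theorem sm_perm {m m' : ℕ} (t : Fin m → ℕ) (q : Fin m' → ℕ) :
    Sm t q ↔ Sm (fun i => σ (t i)) (fun i => σ (q i)) := by
  unfold Sm
  simp

private theorem rl_perm (h : Mp σ M M') (n : ℕ) (t : Fin (bb n) → ℕ) :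
    Rl s M c n t ↔ Rl s M' (fun i => σ (c i)) n (fun i => σ (t i)) := by
  unfold Rl
  refine or_congr (exists_congr fun j => and_congr Iff.rfl ((pt σ _).exists_congr fun q =>
    and_congr (a1_perm h j q) (sm_perm t q))) (or_congr (exists_congr fun j =>
    and_congr Iff.rfl ((pt σ _).exists_congr fun q => and_congr (o1_perm h j _ _)
    (sm_perm t q))) (exists_congr fun j => and_congr Iff.rfl ((pt σ _).exists_congr fun q =>
    and_congr (a2_perm h j q) (sm_perm t q))))

variable {y y' : Str bb}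

private theorem yy_perm (h : Mp σ y y') (j : s.J) (q : Fin (s.sz j) → ℕ) :
    YY s y j q ↔ YY s y' j (fun d => σ (q d)) := by
  rcases j with j | j
  · show Y1 s y j q ↔ Y1 s y' j (fun d => σ (q d))
    unfold Y1
    refine (pt σ _).exists_congr fun t => and_congr ?_ (sm_perm t q)
    show _ ↔ y' _ (fun i => σ (t i)) = true
    rw [h _ t]
  · show Y2 s y j q ↔ Y2 s y' j (fun d => σ (q d))
    unfold Y2
    refine (pt σ _).exists_congr fun t => and_congr ?_ (sm_perm t q)
    show _ ↔ y' _ (fun i => σ (t i)) = true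
    rw [h _ t]

/-- pairs -/
private abbrev pq (σ : Equiv.Perm ℕ) : Finset (ℕ × ℕ) ≃ Finset (ℕ × ℕ) :=
  Equiv.finsetCongr (Equiv.prodCongr σ σ)

private theorem mem_pq (P : Finset (ℕ × ℕ)) (u v : ℕ) : (σ u, σ v) ∈ pq σ P ↔ (u, v) ∈ P := by
  rw [Equiv.finsetCongr_apply, Finset.mem_map]
  constructor
  · rintro ⟨⟨u', v'⟩, h1, h2⟩
    simp at h2
    rw [← h2.1, ← h2.2]
    exact h1
  · intro h1
    exact ⟨(u, v), h1, rfl⟩

private theorem mt_perm (h : Mp σ y y') {m : ℕ} (t t' : Fin m → ℕ) :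
    Mt' s y c t t' ↔ Mt' s y' (fun i => σ (c i)) (fun i => σ (t i)) (fun i => σ (t' i)) := by
  unfold Mt'
  refine (pq σ).exists_congr fun P => ?_
  refine and_congr (forall_congr' fun l => (mem_pq P _ _).symm) (and_congr
    (forall_congr' fun i => imp_congr Iff.rfl (mem_pq P _ _).symm) (and_congr
    (pi_perm h fun u v => (mem_pq P u v).symm) (and_congr ?_ ?_)))
  · refine forall_congr' fun j => (pt σ _).forall_congr fun q => imp_congr (yy_perm h j q)
      (imp_congr (exists_congr fun d => σ.exists_congr fun b => (mem_pq P _ _).symm)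
      (forall_congr' fun d => σ.exists_congr fun b => (mem_pq P _ _).symm))
  · refine forall_congr' fun j => (pt σ _).forall_congr fun q => imp_congr (yy_perm h j q)
      (imp_congr (exists_congr fun d => σ.exists_congr fun b => (mem_pq P _ _).symm)
      (forall_congr' fun d => σ.exists_congr fun b => (mem_pq P _ _).symm))

private theorem iE (s : Sh k) (σ : Equiv.Perm ℕ) (x x' : Str a) (c : Fin k → ℕ) (h : Mp σ x x') :
    MpX σ (cE s (x, c)) (cE s (x', fun i => σ (c i))) := by
  classical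
  constructor
  · intro n t
    show decide (Rl s (nu x') (fun i => σ (c i)) n (fun i => σ (t i))) =
      decide (Rl s (nu x) c n t)
    rw [Bool.eq_iff_iff, decide_eq_true_iff, decide_eq_true_iff]
    exact (rl_perm (nu_perm h) n t).symm
  · intro m v
    show (if m % 2 = 0 then x' (m / 2) (fun _ => σ v) else
      match (Encodable.decode (m / 2) : Option (TI a k)) with
      | some p => x' p.1 (fun i => σ (c (p.2 i)))
      | none => false) = (if m % 2 = 0 then x (m / 2) (fun _ => v) else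
      match (Encodable.decode (m / 2) : Option (TI a k)) with
      | some p => x p.1 (fun i => c (p.2 i))
      | none => false)
    split_ifs with hm
    · exact h (m / 2) (fun _ => v)
    · rcases (Encodable.decode (m / 2) : Option (TI a k)) with _ | p
      · rfl
      · exact h p.1 (fun i => c (p.2 i))

private theorem iD (s : Sh k) (σ : Equiv.Perm ℕ) (y y' : Ex bb) (c : Fin k → ℕ)
    (h : MpX σ y y') : Mp σ (cD (a := a) s (y, c)) (cD s (y', fun i => σ (c i))) := by
  classical
  intro n t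
  show (if ∃ i j, σ (t i) ≠ σ (t j) then decide (∃ τ : Fin (a n) → Fin k,
      (∀ v, y'.2 (2 * Encodable.encode (⟨n, τ⟩ : TI a k) + 1) v = true) ∧
        Mt' s y'.1 (fun i => σ (c i)) (fun i => σ (t i)) (fun i => σ (c (τ i))))
    else decide (∀ v, (∀ i, σ (t i) = v) → y'.2 (2 * n) v = true)) =
    (if ∃ i j, t i ≠ t j then decide (∃ τ : Fin (a n) → Fin k,
      (∀ v, y.2 (2 * Encodable.encode (⟨n, τ⟩ : TI a k) + 1) v = true) ∧
        Mt' s y.1 c t (fun i => c (τ i)))
    else decide (∀ v, (∀ i, t i = v) → y.2 (2 * n) v = true))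
  have e0 : (∃ i j, σ (t i) ≠ σ (t j)) ↔ ∃ i j, t i ≠ t j := by simp
  by_cases h0 : ∃ i j, t i ≠ t j
  · rw [if_pos (e0.2 h0), if_pos h0, Bool.eq_iff_iff, decide_eq_true_iff, decide_eq_true_iff]
    refine exists_congr fun τ => and_congr ?_ (mt_perm h.1 _ _).symm
    exact (σ.forall_congr fun v => by rw [h.2]).symm
  · rw [if_neg (fun h1 => h0 (e0.1 h1)), if_neg h0, Bool.eq_iff_iff, decide_eq_true_iff,
      decide_eq_true_iff]
    exact (σ.forall_congr fun v => by rw [h.2]; simp).symm

end perm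

/-! ### Borel predicates -/

section meas

open Pool.H27.GW

variable {Z : Type} [TopologicalSpace Z] {M : Z → Str a}

private theorem mb_PI {p : Z → Pos} (hM : ∀ n t, MB (fun z => M z n t = true))
    (hp : ∀ q, MB (fun z => q ∈ p z)) : MB (fun z => PI (M z) (M z) (p z)) := by
  unfold PI
  refine MB.and ?_ ?_
  · refine MB.all fun n => MB.all fun t => (MB.all fun i => hp (t i)).imp ?_
    exact ((hM n fun i => (t i).1).iff (hM n fun i => (t i).2)).congr fun z => Bool.eq_iff_iff
  · exact MB.all fun q => (hp q).imp (MB.all fun r => (hp r).imp (MB.const _))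

/-- equality of a pair with a pair of Borel functions -/
private theorem mb_pair {f g : Z → ℕ} (hf : ∀ o, MB (fun z => f z = o))
    (hg : ∀ o, MB (fun z => g z = o)) (p : ℕ × ℕ) : MB (fun z => p = (f z, g z)) :=
  ((hf p.1).and (hg p.2)).congr fun z => by
    rw [Prod.ext_iff]
    exact and_congr eq_comm eq_comm

private theorem mb_cfR {E : Z → Set ℕ} {s l : ℕ} {u v : Z → Fin s → ℕ} {w : Z → Fin l → ℕ}
    (hM : ∀ n t, MB (fun z => M z n t = true)) (hE : ∀ y, MB (fun z => y ∈ E z))
    (hu : ∀ d o, MB (fun z => u z d = o)) (hv : ∀ d o, MB (fun z => v z d = o))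
    (hw : ∀ d o, MB (fun z => w z d = o)) (q q' : Fin s → ℕ) :
    MB (fun z => CfR (M z) (E z) (u z) (v z) (w z) q q') := by
  unfold CfR
  refine MB.ex fun z' => mb_PI hM fun p => ?_
  have h1 : MB (fun z => (p.1 ∈ E z ∧ p.1 = p.2) ∨ ((∃ d, p = (u z d, q d)) ∨
      (∃ d, p = (v z d, q' d)) ∨ ∃ d, p = (w z d, z' d))) :=
    ((hE p.1).and (MB.const _)).or ((MB.ex fun d => mb_pair (hu d) (fun o => MB.const _) p).or
      ((MB.ex fun d => mb_pair (hv d) (fun o => MB.const _) p).or
      (MB.ex fun d => mb_pair (hw d) (fun o => MB.const _) p)))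
  exact h1

variable {c : Z → Fin k → ℕ} {s : Sh k}

private theorem mb_ee (hc : ∀ i o, MB (fun z => c z i = o)) (y : ℕ) :
    MB (fun z => y ∈ EE s (c z)) := by
  have h1 : MB (fun z => ∃ i : Fin k, i ∈ s.1.1 ∧ y = c z i) :=
    MB.ex fun i => (MB.const _).and ((hc i y).congr fun z => eq_comm)
  exact h1

private theorem mb_e0 (hc : ∀ i o, MB (fun z => c z i = o)) (y : ℕ) :
    MB (fun z => y ∈ E0 s (c z)) := by
  have h1 : MB (fun z => ∃ i : Fin k, i ∈ s.1.2 ∧ y = c z i) :=
    MB.ex fun i => (MB.const _).and ((hc i y).congr fun z => eq_comm)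
  exact h1

private theorem mb_cf (hM : ∀ n t, MB (fun z => M z n t = true))
    (hc : ∀ i o, MB (fun z => c z i = o)) (j : Fin s.n1) (q q' : Fin (s.s1 j) → ℕ) :
    MB (fun z => Cf s (M z) (c z) j q q') :=
  mb_cfR hM (mb_ee hc) (fun _ o => hc _ o) (fun _ o => hc _ o) (fun _ o => hc _ o) q q'

private theorem mb_a1 (hM : ∀ n t, MB (fun z => M z n t = true))
    (hc : ∀ i o, MB (fun z => c z i = o)) (j : Fin s.n1) (q : Fin (s.s1 j) → ℕ) :
    MB (fun z => A1 s (M z) (c z) j q) :=
  MB.ex fun q' => (mb_cf hM hc j q q').or (mb_cf hM hc j q' q)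

private theorem mb_o1 (hM : ∀ n t, MB (fun z => M z n t = true))
    (hc : ∀ i o, MB (fun z => c z i = o)) (j : Fin s.n1) (p p' : ℕ) :
    MB (fun z => O1 s (M z) (c z) j p p') :=
  MB.ex fun q => MB.ex fun q' => (mb_cf hM hc j q q').and (MB.const _)

private theorem mb_dd (hM : ∀ n t, MB (fun z => M z n t = true))
    (hc : ∀ i o, MB (fun z => c z i = o)) (y : ℕ) :
    MB (fun z => y ∈ DD s (M z) (c z)) :=
  (mb_e0 hc y).not.and (MB.all fun j => MB.all fun q => (mb_a1 hM hc j q).imp (MB.const _))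

private theorem mb_a2 (hM : ∀ n t, MB (fun z => M z n t = true))
    (hc : ∀ i o, MB (fun z => c z i = o)) (j : Fin s.n2) (q : Fin (s.s2 j) → ℕ) :
    MB (fun z => A2 s (M z) (c z) j q) := by
  have h1 : MB (fun z => ∃ w : Fin (s.s2 j) → ℕ, (∀ d, c z (s.z j d) = w d) ∧ (Function.Injective q ∧
      ((∀ d, q d ∈ DD s (M z) (c z)) ∧ ((∀ d d', q d ≠ w d') ∧
      ∀ (n : ℕ) (t : Fin (a n) → ℕ), (M z n (fun i => swf w q (t i)) = true ↔ M z n t = true))))) :=
    MB.ex fun w => (MB.all fun d => hc _ _).and ((MB.const _).and ((MB.all fun d =>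
      mb_dd hM hc (q d)).and ((MB.const _).and (MB.all fun n => MB.all fun t =>
      (hM n _).iff (hM n t)))))
  refine h1.congr fun z => Iff.symm ?_
  unfold A2 AsQ
  constructor
  · rintro ⟨w, h2, h3, h4, h5, h6⟩
    have e : (fun d => c z (s.z j d)) = w := funext h2
    rw [e]
    exact ⟨h3, h4, h5, fun n t => Bool.eq_iff_iff.2 (h6 n t)⟩
  · rintro ⟨h3, h4, h5, h6⟩
    exact ⟨fun d => c z (s.z j d), fun d => rfl, h3, h4, h5, fun n t =>
      Bool.eq_iff_iff.1 (h6 n t)⟩

private theorem mb_rl (hM : ∀ n t, MB (fun z => M z n t = true))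
    (hc : ∀ i o, MB (fun z => c z i = o)) (n : ℕ) (t : Fin (bb n) → ℕ) :
    MB (fun z => Rl s (M z) (c z) n t) :=
  (MB.ex fun j => (MB.const _).and (MB.ex fun q => (mb_a1 hM hc j q).and (MB.const _))).or
    ((MB.ex fun j => (MB.const _).and (MB.ex fun q : Fin 2 → ℕ =>
      (mb_o1 hM hc j (q 0) (q 1)).and (MB.const _))).or
    (MB.ex fun j => (MB.const _).and (MB.ex fun q => (mb_a2 hM hc j q).and (MB.const _))))

private theorem mb_yy {y : Z → Str bb} (hy : ∀ n t, MB (fun z => y z n t = true)) (j : s.J)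
    (q : Fin (s.sz j) → ℕ) : MB (fun z => YY s (y z) j q) := by
  rcases j with j | j
  · have h1 : MB (fun z => Y1 s (y z) j q) := MB.ex fun t => (hy _ t).and (MB.const _)
    exact h1
  · have h1 : MB (fun z => Y2 s (y z) j q) := MB.ex fun t => (hy _ t).and (MB.const _)
    exact h1

private theorem mb_mt {y : Z → Str bb} (hy : ∀ n t, MB (fun z => y z n t = true))
    (hc : ∀ i o, MB (fun z => c z i = o)) {m : ℕ} {t t' : Z → Fin m → ℕ}
    (ht : ∀ i o, MB (fun z => t z i = o)) (ht' : ∀ i o, MB (fun z => t' z i = o)) :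
    MB (fun z => Mt' s (y z) (c z) (t z) (t' z)) := by
  have hm : ∀ (P : Finset (ℕ × ℕ)) (f g : Z → ℕ), (∀ o, MB (fun z => f z = o)) →
      (∀ o, MB (fun z => g z = o)) → MB (fun z => (f z, g z) ∈ P) := by
    intro P f g hf hg
    have h1 : MB (fun z => ∃ o o', f z = o ∧ g z = o' ∧ (o, o') ∈ P) :=
      MB.ex fun o => MB.ex fun o' => (hf o).and ((hg o').and (MB.const _))
    exact h1.congr fun z => ⟨fun h => ⟨_, _, rfl, rfl, h⟩, by
      rintro ⟨o, o', rfl, rfl, h⟩
      exact h⟩
  unfold Mt'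
  refine MB.ex fun P => (MB.all fun l => hm P _ _ (ht l) (ht' l)).and ((MB.all fun i =>
    (MB.const _).imp (hm P _ _ (hc i) (hc i))).and ((mb_PI hy fun q => MB.const _).and ?_))
  exact (MB.all fun j => MB.all fun q => (mb_yy hy j q).imp ((MB.const _).imp (MB.const _))).and
    (MB.all fun j => MB.all fun q => (mb_yy hy j q).imp ((MB.const _).imp (MB.const _)))

private theorem mb_nu (n : ℕ) (t : Fin (a n) → ℕ) :
    MB (fun z : Str a × (Fin k → ℕ) => nu z.1 n t = true) := by
  have h1 : MB (fun z : Str a × (Fin k → ℕ) => (∃ i j, t i ≠ t j) ∧ z.1 n t = true) :=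
    (MB.const _).and (mb_val n t)
  exact h1.congr fun z => by unfold nu; simp

open Classical in
private theorem mE (s : Sh k) : @Measurable _ _ (borel (Str a × (Fin k → ℕ))) (borel (Ex bb))
    (cE (a := a) s) := by
  refine meas_ex (fun n t => ?_) (fun m v => ?_)
  · refine (mb_rl (s := s) (M := fun z : Str a × (Fin k → ℕ) => nu z.1) (c := fun z => z.2)
      mb_nu (fun i o => mb_par i o) n t).congr fun z => ?_
    exact decide_eq_true_iff
  · by_cases hm : m % 2 = 0
    · refine (mb_val (k := k) (a := a) (m / 2) (fun _ => v)).congr fun z => ?_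
      show (if m % 2 = 0 then _ else _) = true ↔ _
      rw [if_pos hm]
    · have h1 : MB (fun z : Str a × (Fin k → ℕ) =>
          (match (Encodable.decode (m / 2) : Option (TI a k)) with
            | some p => z.1 p.1 (fun i => z.2 (p.2 i))
            | none => false) = true) := by
        rcases (Encodable.decode (m / 2) : Option (TI a k)) with _ | p
        · exact MB.const (Z := Str a × (Fin k → ℕ)) (false = true)
        · refine MB.dep (Z := Str a × (Fin k → ℕ)) (ι := Fin (a p.1) → ℕ)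
            (R := fun t z => z.1 p.1 t = true) (f := fun z i => z.2 (p.2 i))
            (fun t => mb_val p.1 t) (fun t => ?_)
          have h2 : MB (fun z : Str a × (Fin k → ℕ) => ∀ i, z.2 (p.2 i) = t i) :=
            MB.all fun i => mb_par (a := a) (p.2 i) (t i)
          exact h2.congr fun z => funext_iff
      refine h1.congr fun z => ?_
      show (if m % 2 = 0 then _ else _) = true ↔ _
      rw [if_neg hm]
      exact Iff.rfl

open Classical in
private theorem mD (s : Sh k) : @Measurable _ _ (borel (Ex bb × (Fin k → ℕ))) (borel (Str a))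
    (cD (a := a) s) := by
  refine meas_str fun n t => ?_
  by_cases h0 : ∃ i j, t i ≠ t j
  · have h1 : MB (fun z : Ex bb × (Fin k → ℕ) => ∃ τ : Fin (a n) → Fin k,
        (∀ v, z.1.2 (2 * Encodable.encode (⟨n, τ⟩ : TI a k) + 1) v = true) ∧
          Mt' s z.1.1 z.2 t (fun i => z.2 (τ i))) :=
      MB.ex fun τ => (MB.all fun v => mbx_un _ v).and
        (mb_mt (y := fun z : Ex bb × (Fin k → ℕ) => z.1.1) (c := fun z => z.2)
          (t := fun _ => t) (t' := fun z i => z.2 (τ i)) (fun n t => mbx_val n t)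
          (fun i o => mbx_par i o) (fun i o => MB.const _) (fun i o => mbx_par _ o))
    refine h1.congr fun z => ?_
    show (if ∃ i j, t i ≠ t j then _ else _) = true ↔ _
    rw [if_pos h0]
    exact decide_eq_true_iff
  · have h1 : MB (fun z : Ex bb × (Fin k → ℕ) => ∀ v, (∀ i, t i = v) → z.1.2 (2 * n) v = true) :=
      MB.all fun v => (MB.const _).imp (mbx_un _ v)
    refine h1.congr fun z => ?_
    show (if ∃ i j, t i ≠ t j then _ else _) = true ↔ _
    rw [if_neg h0]
    exact decide_eq_true_iff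

end meas

theorem cdg (s : Sh k) : Cdg (cE (a := a) s) (cD s) where
  mE := mE s
  mD := mD s
  iE := iE s
  iD := iD s

end Pool.H17.CB
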