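import Pool.Agent.H17.CB.Def
import Pool.Agent.H63.TB.Md

/-!
# The code consists of cells and chains of cells
-/

set_option autoImplicit false

namespace Pool.H17.CB

open Set Pool.H62.VT Pool.H63.MQ Pool.H22.CO Pool.H63.TB

variable {a : ℕ → ℕ} {k r : ℕ} {s : Sh k} {x : Str a} {c : Fin k → ℕ}

/-- the points `u` and `v` are in the same cell -/
private def Eq' (s : Sh k) (M : Str a) (c : Fin k → ℕ) (u v : ℕ) : Prop :=
  u = v ∨ ∃ j q, AA s M c j q ∧ (∃ d, q d = u) ∧ ∃ d, q d = v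

/-- points of the chain family `i` -/
private def Pc (s : Sh k) (M : Str a) (c : Fin k → ℕ) (i : ℕ) : Set ℕ :=
  {u | ∃ j : Fin s.n1, (j : ℕ) = i ∧ ∃ q, A1 s M c j q ∧ ∃ d, q d = u}

/-- the order of the chain family `i` -/
private def Lc (s : Sh k) (M : Str a) (c : Fin k → ℕ) (i : ℕ) (u v : ℕ) : Prop :=
  ∃ j : Fin s.n1, (j : ℕ) = i ∧ O1 s M c j u v

variable {M : Str a}

/-- two enumerations which meet have the same points -/
private theorem rng (h : Good s M c r) {j j' : s.J} {q : Fin (s.sz j) → ℕ}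
    {q' : Fin (s.sz j') → ℕ} (hq : AA s M c j q) (hq' : AA s M c j' q') {u : ℕ}
    (h1 : ∃ d, q d = u) (h2 : ∃ d, q' d = u) (v : ℕ) : (∃ d, q d = v) ↔ ∃ d, q' d = v := by
  obtain ⟨d, hd⟩ := h1
  obtain ⟨d', hd'⟩ := h2
  have := (h.dis j q j' q' hq hq' ⟨d, d', hd.trans hd'.symm⟩).2
  have h3 : v ∈ range q ↔ v ∈ range q' := by rw [this]
  exact h3

private theorem o1_cells {j : Fin s.n1} {u v : ℕ} (h : O1 s M c j u v) :
    ∃ q q', A1 s M c j q ∧ A1 s M c j q' ∧ (∃ d, q d = u) ∧ ∃ d, q' d = v := by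
  obtain ⟨q, q', h1, h2, h3⟩ := h
  exact ⟨q, q', ⟨q', Or.inl h1⟩, ⟨q, Or.inr h1⟩, h2, h3⟩

/-- points in the same cell as a point of the cell `q` -/
private theorem eq_cell (h : Good s M c r) {j : s.J} {q : Fin (s.sz j) → ℕ}
    (hq : AA s M c j q) {u v : ℕ} (h1 : ∃ d, q d = u) (h2 : Eq' s M c u v) : ∃ d, q d = v := by
  rcases h2 with rfl | ⟨j', q', hq', h3, h4⟩
  · exact h1
  · exact (rng h hq hq' h1 h3 v).2 h4

private theorem o1_congr (h : Good s M c r) {j : Fin s.n1} {u u' v v' : ℕ}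
    (hu : Eq' s M c u u') (hv : Eq' s M c v v') (h1 : O1 s M c j u v) : O1 s M c j u' v' := by
  obtain ⟨q, q', hq, hq', h2, h3⟩ := o1_cells h1
  obtain ⟨e, he⟩ := eq_cell h (j := Sum.inl j) hq h2 hu
  obtain ⟨e', he'⟩ := eq_cell h (j := Sum.inl j) hq' h3 hv
  obtain ⟨d, hd⟩ := h2
  obtain ⟨d', hd'⟩ := h3
  rw [← hd, ← hd'] at h1
  rw [← he, ← he']
  exact h.oeq j q q' d e d' e' hq hq' h1

private theorem eq_symm {u v : ℕ} (h : Eq' s M c u v) : Eq' s M c v u := by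
  rcases h with rfl | ⟨j, q, hq, h1, h2⟩
  · exact Or.inl rfl
  · exact Or.inr ⟨j, q, hq, h2, h1⟩

private theorem sm_eq {m m' : ℕ} {t : Fin m → ℕ} {q : Fin m' → ℕ} (h : Sm t q) (i : Fin m) :
    ∃ i', q i' = t i := by
  obtain ⟨rfl, h2⟩ := h
  exact ⟨i, (h2 i i rfl).symm⟩

open Classical in
theorem clg (h : Good s (nu x) c r) : ∃ eq P lt, CL (cE s (x, c)).1 eq P lt := by
  refine ⟨Eq' s (nu x) c, Pc s (nu x) c, Lc s (nu x) c, ?_⟩
  constructor
  · exact fun u => Or.inl rfl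
  · exact fun u v => eq_symm
  · rintro u v w (rfl | ⟨j, q, hq, h1, h2⟩) h3
    · exact h3
    · exact Or.inr ⟨j, q, hq, h1, eq_cell h hq h2 h3⟩
  · intro u
    by_cases hu : ∃ j q, AA s (nu x) c j q ∧ ∃ d, q d = u
    · obtain ⟨j, q, hq, hd⟩ := hu
      exact (finite_range q).subset fun v hv => eq_cell h hq hd hv
    · refine (finite_singleton u).subset ?_
      rintro v (rfl | ⟨j, q, hq, h1, h2⟩)
      · rfl
      · exact absurd ⟨j, q, hq, h1⟩ hu
  · rintro i i' u ⟨j, rfl, q, hq, hd⟩ ⟨j', rfl, q', hq', hd'⟩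
    obtain ⟨d, hd⟩ := hd
    obtain ⟨d', hd'⟩ := hd'
    have := (h.dis (Sum.inl j) q (Sum.inl j') q' hq hq' ⟨d, d', hd.trans hd'.symm⟩).1
    exact congrArg Fin.val (Sum.inl_injective this)
  · rintro i u v ⟨j, rfl, h1⟩
    obtain ⟨q, q', hq, hq', h2, h3⟩ := o1_cells h1
    exact ⟨⟨j, rfl, q, hq, h2⟩, ⟨j, rfl, q', hq', h3⟩⟩
  · rintro i u v ⟨j, rfl, h1⟩ h2
    obtain ⟨q, q', hq, hq', h3, h4⟩ := o1_cells h1
    obtain ⟨e, he⟩ := eq_cell h (j := Sum.inl j) hq h3 h2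
    obtain ⟨d, hd⟩ := h3
    rw [← hd, ← he] at h1
    exact h.irr j q d e hq h1
  · rintro i u v w ⟨j, hj, h1⟩ ⟨j', hj', h2⟩
    obtain rfl : j' = j := Fin.ext (hj'.trans hj.symm)
    exact ⟨j', hj, h.tr j' u v w h1 h2⟩
  · rintro i u v ⟨j, hj, q, hq, hd⟩ ⟨j', hj', q', hq', hd'⟩ hne
    obtain rfl : j' = j := Fin.ext (hj'.trans hj.symm)
    have h1 : range q ≠ range q' := by
      intro he
      obtain ⟨d', hd'⟩ := hd'
      have h2 : v ∈ range q := by rw [he]; exact ⟨d', hd'⟩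
      exact hne (Or.inr ⟨Sum.inl j', q, hq, hd, h2⟩)
    obtain ⟨d, rfl⟩ := hd
    obtain ⟨d', rfl⟩ := hd'
    rcases h.tot j' q q' d d' hq hq' h1 with h2 | h2
    · exact Or.inl ⟨j', hj, h2⟩
    · exact Or.inr ⟨j', hj, h2⟩
  · rintro i u u' v hu
    constructor
    · rintro ⟨j, rfl, h1⟩
      exact ⟨j, rfl, o1_congr h hu (Or.inl rfl) h1⟩
    · rintro ⟨j, rfl, h1⟩
      exact ⟨j, rfl, o1_congr h (Or.inl rfl) hu h1⟩
  · intro n
    have hy : ∀ t, (cE s (x, c)).1 n t = true ↔ Rl s (nu x) c n t := fun t => decide_eq_true_iff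
    by_cases hc : ∃ j : Fin s.n1, n.unpair.2 = 3 * (j : ℕ) + 1 ∧ bb n = 2
    · right
      obtain ⟨j, hj, hb⟩ := hc
      refine ⟨j, hb, fun t _ => (hy t).trans ?_⟩
      constructor
      · rintro (⟨j', hj', _⟩ | ⟨j', hj', q, h1, h2⟩ | ⟨j', hj', _⟩)
        · omega
        · obtain rfl : j' = j := Fin.ext (by omega)
          refine ⟨⟨0, by omega⟩, ⟨1, by omega⟩, by simp, j', rfl, ?_⟩
          rw [h2.2 ⟨0, by omega⟩ 0 rfl, h2.2 ⟨1, by omega⟩ 1 rfl]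
          exact h1
        · omega
      · rintro ⟨i, l, hil, j', hj', h1⟩
        obtain rfl : j' = j := Fin.ext hj'
        refine Or.inr (Or.inl ⟨j', hj, ![t i, t l], h1, hb, fun i0 i1 h01 => ?_⟩)
        have a1 := i.isLt
        have a2 := l.isLt
        have a3 : (i : ℕ) < l := hil
        fin_cases i1
        · have : i0 = i := Fin.ext (by simp at h01; omega)
          rw [this]
          rfl
        · have : i0 = l := Fin.ext (by simp at h01; omega)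
          rw [this]
          rfl
    · left
      intro t _ h1 i i'
      rcases (hy t).1 h1 with ⟨j, hj, q, h2, h3⟩ | ⟨j, hj, q, h2, h3⟩ | ⟨j, hj, q, h2, h3⟩
      · exact Or.inr ⟨Sum.inl j, q, h2, sm_eq h3 i, sm_eq h3 i'⟩
      · exact absurd ⟨j, hj, h3.1⟩ hc
      · exact Or.inr ⟨Sum.inr j, q, h2, sm_eq h3 i, sm_eq h3 i'⟩

end Pool.H17.CB
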