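import Pool.Agent.H17.CB.Yd

/-!
# Decoding is complete: every tuple has the position of a tuple of parameters
-/

set_option autoImplicit false

namespace Pool.H17.CB

open Set Pool.H62.VT Pool.H63.MQ Pool.H22.CO

variable {a : ℕ → ℕ} {k r m : ℕ} {s : Sh k} {x : Str a} {c : Fin k → ℕ} {M : Str a}

/-- reference cells of all families -/
theorem refs (h : Good s M c r) (j : s.J) : ∃ ρ : Fin r → Fin (s.sz j) → Fin k,
    (∀ i, AA s M c j (fun d => c (ρ i d))) ∧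
    (∀ i i', i ≠ i' → ∀ d d', c (ρ i d) ≠ c (ρ i' d')) ∧
    ∀ j0, j = Sum.inl j0 → ∀ i i', i < i' → ∀ d d', O1 s M c j0 (c (ρ i d)) (c (ρ i' d')) := by
  rcases j with j | j
  · obtain ⟨ρ, h1, h2⟩ := h.ref1 j
    refine ⟨ρ, h1, ?_, ?_⟩
    · intro i i' hne d d' he
      rcases lt_or_gt_of_ne hne with hlt | hlt
      · have h3 := h2 i i' hlt d d'
        have he' : c (ρ i d) = c (ρ i' d') := he
        rw [he'] at h3
        exact h.irr' h3
      · have h3 := h2 i' i hlt d' d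
        have he' : c (ρ i d) = c (ρ i' d') := he
        rw [he'] at h3
        exact h.irr' h3
    · intro j0 hj i i' hlt d d'
      have e1 : j = j0 := Sum.inl.inj hj
      subst e1
      exact h2 i i' hlt d d'
  · obtain ⟨ρ, h1, h2⟩ := h.ref2 j
    refine ⟨ρ, h1, h2, ?_⟩
    intro j0 hj
    cases hj

/-- the order of the cells of a family -/
def Lt (S' S : Ce s M c) : Prop :=
  S'.j = S.j ∧ ((∃ j0, S.j = Sum.inl j0 ∧ ∃ p' ∈ S'.1, ∃ p ∈ S.1, O1 s M c j0 p' p) ∨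
    ((∃ j0, S.j = Sum.inr j0) ∧ sInf S'.1 < sInf S.1))

theorem o1_all (h : Good s M c r) {S S' : Ce s M c} {j0 : Fin s.n1} (hj : S.j = Sum.inl j0)
    (hj' : S'.j = Sum.inl j0) {p p' v v' : ℕ} (hp : p ∈ S.1) (hp' : p' ∈ S'.1) (hv : v ∈ S.1)
    (hv' : v' ∈ S'.1) (ho : O1 s M c j0 p p') : O1 s M c j0 v v' := by
  obtain ⟨d, rfl⟩ := S.ex hp
  obtain ⟨e, rfl⟩ := S.ex hv
  obtain ⟨d', rfl⟩ := S'.ex hp'
  obtain ⟨e', rfl⟩ := S'.ex hv'
  exact h.oeq' S.aa S'.aa hj hj' ho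

theorem lt_irr (h : Good s M c r) (S : Ce s M c) : ¬ Lt S S := by
  rintro ⟨-, ⟨j0, hj, p', hp', p, hp, ho⟩ | ⟨-, h1⟩⟩
  · exact h.irr' (o1_all h hj hj hp' hp hp hp ho)
  · exact lt_irrefl _ h1

theorem lt_tr (h : Good s M c r) {S S' S'' : Ce s M c} (h1 : Lt S S') (h2 : Lt S' S'') :
    Lt S S'' := by
  obtain ⟨e1, h1⟩ := h1
  obtain ⟨e2, h2⟩ := h2
  refine ⟨e1.trans e2, ?_⟩
  rcases h1 with ⟨j0, hj, p', hp', p, hp, ho⟩ | ⟨⟨j0, hj⟩, h1⟩
  · rcases h2 with ⟨j1, hj1, v', hv', v, hv, ho'⟩ | ⟨⟨j1, hj1⟩, h2⟩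
    · have e3 : j0 = j1 := Sum.inl.inj (hj.symm.trans (e2.trans hj1))
      subst e3
      refine Or.inl ⟨j0, hj1, p', hp', v, hv, h.tr j0 _ p _ ho ?_⟩
      exact o1_all h hj hj1 hv' hv hp hv ho'
    · have : (Sum.inl j0 : s.J) = Sum.inr j1 := hj.symm.trans (e2.trans hj1)
      cases this
  · rcases h2 with ⟨j1, hj1, v', hv', v, hv, ho'⟩ | ⟨⟨j1, hj1⟩, h2⟩
    · have : (Sum.inr j0 : s.J) = Sum.inl j1 := hj.symm.trans (e2.trans hj1)
      cases this
    · exact Or.inr ⟨⟨j1, hj1⟩, h1.trans h2⟩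

theorem lt_tot (h : Good s M c r) {S S' : Ce s M c} (hj : S.j = S'.j) (hne : S ≠ S') :
    Lt S S' ∨ Lt S' S := by
  cases hS : S'.j with
  | inl j0 =>
    have hS1 : S.j = Sum.inl j0 := hj.trans hS
    have key : ∀ {j j' : s.J} {q : Fin (s.sz j) → ℕ} {q' : Fin (s.sz j') → ℕ},
        AA s M c j q → AA s M c j' q' → j = Sum.inl j0 → j' = Sum.inl j0 → range q ≠ range q' →
        ∀ d d', O1 s M c j0 (q d) (q' d') ∨ O1 s M c j0 (q' d') (q d) := by
      intro j j' q q' hq hq' e1 e2 hr d d'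
      subst e1
      subst e2
      exact h.tot j0 q q' d d' hq hq' hr
    have hr : range S.q ≠ range S'.q := by
      rw [S.range_q, S'.range_q]
      exact fun e => hne (Subtype.ext e)
    rcases key S.aa S'.aa hS1 hS hr ⟨0, h.pos _⟩ ⟨0, h.pos _⟩ with h1 | h1
    · exact Or.inl ⟨hj, Or.inl ⟨j0, hS, _, S.mem _, _, S'.mem _, h1⟩⟩
    · exact Or.inr ⟨hj.symm, Or.inl ⟨j0, hS1, _, S'.mem _, _, S.mem _, h1⟩⟩
  | inr j0 =>
    have hS1 : S.j = Sum.inr j0 := hj.trans hS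
    have h1 : sInf S.1 ∈ S.1 := Nat.sInf_mem (h.nonempty S)
    have h2 : sInf S'.1 ∈ S'.1 := Nat.sInf_mem (h.nonempty S')
    have h3 : sInf S.1 ≠ sInf S'.1 := fun e => hne (h.cell_eq h1 (e ▸ h2))
    rcases lt_or_gt_of_ne h3 with h4 | h4
    · exact Or.inl ⟨hj, Or.inr ⟨⟨j0, hS⟩, h4⟩⟩
    · exact Or.inr ⟨hj.symm, Or.inr ⟨⟨j0, hS1⟩, h4⟩⟩

open Classical in
/-- position of a cell among the cells which meet `t` -/
noncomputable def ps (t : Fin m → ℕ) (S : Ce s M c) : ℕ :=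
  (Finset.univ.filter fun l : Fin m => ∃ S' : Ce s M c, t l ∈ S'.1 ∧ Lt S' S).card

theorem ps_lt (h : Good s M c r) {t : Fin m → ℕ} {S : Ce s M c} (hS : ∃ l, t l ∈ S.1) :
    ps t S < m := by
  classical
  obtain ⟨l, hl⟩ := hS
  have h1 : (Finset.univ.filter fun l : Fin m => ∃ S' : Ce s M c, t l ∈ S'.1 ∧ Lt S' S) ⊂
      Finset.univ := by
    refine Finset.ssubset_univ_iff.2 fun e => ?_
    have h2 : l ∈ (Finset.univ.filter fun l : Fin m => ∃ S' : Ce s M c, t l ∈ S'.1 ∧ Lt S' S) :=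
      by rw [e]; exact Finset.mem_univ l
    obtain ⟨S', h3, h4⟩ := (Finset.mem_filter.1 h2).2
    rw [h.cell_eq h3 hl] at h4
    exact lt_irr h S h4
  have h2 := Finset.card_lt_card h1
  rw [Finset.card_univ, Fintype.card_fin] at h2
  exact h2

theorem ps_mono (h : Good s M c r) {t : Fin m → ℕ} {S S' : Ce s M c} (hS : ∃ l, t l ∈ S.1)
    (hlt : Lt S S') : ps t S < ps t S' := by
  classical
  obtain ⟨l, hl⟩ := hS
  unfold ps
  refine Finset.card_lt_card (Finset.ssubset_iff_of_subset ?_ |>.2 ⟨l, ?_, ?_⟩)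
  · intro l' hl'
    obtain ⟨S1, h3, h4⟩ := (Finset.mem_filter.1 hl').2
    exact Finset.mem_filter.2 ⟨Finset.mem_univ _, S1, h3, lt_tr h h4 hlt⟩
  · exact Finset.mem_filter.2 ⟨Finset.mem_univ _, S, hl, hlt⟩
  · intro h2
    obtain ⟨S1, h3, h4⟩ := (Finset.mem_filter.1 h2).2
    rw [h.cell_eq h3 hl] at h4
    exact lt_irr h S h4

/-- PROOF. Every entry of `t` outside `E0` is in a cell (`cov`); choose for each cell which meets `t` one
enumeration (`AA`). At most `m ≤ r` cells of each family. Enumerate the cells of the chain family `j`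
increasingly (`tot`, `tr`, `irr`) and map them in this order to the first ones of the reference cells
`ref1`; the cells of a symmetric family are mapped injectively to reference cells (`ref2`). Let `P` be
the identity on `E0` together with the moves `q i d ↦ q' i d` (finite). Domain and range are closed under
cells (`dis`, `out`); `P` is a partial isomorphism of the code: enumerations by `lab` (and `dis`: an
enumeration of the cell `range (q i)` is `q i ∘ γ`), the order by `oeq`, `tot`, `irr`, `tr`. -/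
theorem complete (h : Good s (nu x) c r) (hm : m ≤ r) (t : Fin m → ℕ) :
    ∃ τ : Fin m → Fin k, Mt' s (cE s (x, c)).1 c t (fun i => c (τ i)) := by
  choose ρ hρ1 hρ2 hρ3 using refs h
  -- cells which meet `t`
  let ι : Type := {S : Ce s (nu x) c // ∃ l, t l ∈ S.1}
  let pos : ι → Fin r := fun i => ⟨ps t i.1, (ps_lt h i.2).trans_le hm⟩
  let j : ι → s.J := fun i => i.1.j
  let q : ∀ i : ι, Fin (s.sz (j i)) → ℕ := fun i => i.1.q
  let q' : ∀ i : ι, Fin (s.sz (j i)) → ℕ := fun i d => c (ρ i.1.j (pos i) d)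
  have hlt : ∀ i i' : ι, Lt i.1 i'.1 → pos i < pos i' := fun i i' h1 => ps_mono h i.2 h1
  have hA : ∀ i, AA s (nu x) c (j i) (q i) := fun i => i.1.aa
  have hA' : ∀ i, AA s (nu x) c (j i) (q' i) := fun i => hρ1 _ _
  have ho : ∀ i i' j0, j i = Sum.inl j0 → j i' = Sum.inl j0 → ∀ d d' e e',
      O1 s (nu x) c j0 (q i d) (q i' d') → O1 s (nu x) c j0 (q' i e) (q' i' e') := by
    intro i i' j0 hj hj' d d' e e' ho
    have h1 : Lt i.1 i'.1 :=
      ⟨hj.trans hj'.symm, Or.inl ⟨j0, hj', _, i.1.mem d, _, i'.1.mem d', ho⟩⟩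
    have h2 := hlt i i' h1
    have key : ∀ (j1 j2 : s.J) (e1 : j1 = j2) (_ : j2 = Sum.inl j0) (p1 p2 : Fin r), p1 < p2 →
        ∀ (d1 : Fin (s.sz j1)) (d2 : Fin (s.sz j2)),
          O1 s (nu x) c j0 (c (ρ j1 p1 d1)) (c (ρ j2 p2 d2)) := by
      intro j1 j2 e1 e2 p1 p2 h12 d1 d2
      subst e1
      exact hρ3 j1 j0 e2 p1 p2 h12 d1 d2
    exact key _ _ (hj.trans hj'.symm) hj' _ _ h2 e e'
  have H : Hf s (nu x) c q q' := by
    refine ⟨hA, hA', ?_, ?_, ho, ?_⟩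
    · intro i i' hne d d' he
      have he' : i.1.q d = i'.1.q d' := he
      exact hne (Subtype.ext (h.cell_eq (i.1.mem d) (he' ▸ i'.1.mem d')))
    · intro i i' hne d d' he
      have hj : j i = j i' := (h.dis _ _ _ _ (hA' i) (hA' i') ⟨d, d', he⟩).1
      have h1 : pos i ≠ pos i' := by
        rcases lt_tot h hj (fun e => hne (Subtype.ext e)) with h1 | h1
        · exact (hlt _ _ h1).ne
        · exact (hlt _ _ h1).ne'
      have key : ∀ (j1 j2 : s.J) (e1 : j1 = j2) (p1 p2 : Fin r), p1 ≠ p2 →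
          ∀ (d1 : Fin (s.sz j1)) (d2 : Fin (s.sz j2)), c (ρ j1 p1 d1) ≠ c (ρ j2 p2 d2) := by
        intro j1 j2 e1 p1 p2 h12 d1 d2
        subst e1
        exact hρ2 j1 p1 p2 h12 d1 d2
      exact key _ _ hj _ _ h1 d d' he
    · intro i i' j0 hj hj' d d' e e' ho'
      have hne : i ≠ i' := by
        rintro rfl
        exact h.irr' (h.oeq' (hA' i) (hA' i) hj hj (e := d) (e' := d) ho')
      rcases lt_tot h (hj.trans hj'.symm) (fun e => hne (Subtype.ext e)) with h1 | h1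
      · obtain ⟨-, ⟨j1, hj1, p', hp', p, hp, h2⟩ | ⟨⟨j1, hj1⟩, -⟩⟩ := h1
        · have e3 : j0 = j1 := Sum.inl.inj (hj'.symm.trans hj1)
          subst e3
          exact o1_all h hj hj' hp' hp (i.1.mem e) (i'.1.mem e') h2
        · have e3 : (Sum.inl j0 : s.J) = Sum.inr j1 := hj'.symm.trans hj1
          cases e3
      · obtain ⟨-, ⟨j1, hj1, p', hp', p, hp, h2⟩ | ⟨⟨j1, hj1⟩, -⟩⟩ := h1
        · have e3 : j0 = j1 := Sum.inl.inj (hj.symm.trans hj1)
          subst e3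
          have h3 : O1 s (nu x) c j0 (q i' d') (q i d) :=
            o1_all h hj' hj hp' hp (i'.1.mem d') (i.1.mem d) h2
          have h4 := ho i' i j0 hj' hj d' d d' d h3
          exact absurd (h.tr j0 _ _ _ ho' h4) fun h5 => h.irr' h5
        · have e3 : (Sum.inl j0 : s.J) = Sum.inr j1 := hj.symm.trans hj1
          cases e3
  -- finiteness
  have hfι : Finite ι := by
    have h0 : ∀ i : ι, ∃ l, t l ∈ i.1.1 := fun i => i.2
    choose l hl using h0
    refine Finite.of_injective l fun i i' hii => Subtype.ext (h.cell_eq (hl i) ?_)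
    rw [hii]
    exact hl i'
  have hfin : (Mv s c q q').Finite := by
    refine Set.Finite.union ?_ ?_
    · refine (Set.Finite.image (fun i => (c i, c i)) (s.1.2.finite_toSet)).subset ?_
      rintro ⟨u, v⟩ ⟨⟨i, hi, h1⟩, h2⟩
      have h3 : u = v := h2
      have h4 : u = c i := h1
      subst h3
      exact ⟨i, hi, by rw [h4]⟩
    · have h1 : {p : ℕ × ℕ | ∃ i d, p = (q i d, q' i d)} =
          range fun w : (Σ i : ι, Fin (s.sz (j i))) => (q w.1 w.2, q' w.1 w.2) := by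
        ext p
        constructor
        · rintro ⟨i, d, rfl⟩
          exact ⟨⟨i, d⟩, rfl⟩
        · rintro ⟨⟨i, d⟩, rfl⟩
          exact ⟨i, d, rfl⟩
      rw [h1]
      exact Set.finite_range _
  -- the tuple of parameters
  have hτ : ∀ l, ∃ e : Fin k, (t l, c e) ∈ Mv s c q q' := by
    intro l
    by_cases hl : t l ∈ E0 s c
    · obtain ⟨i, hi, h1⟩ := hl
      exact ⟨i, Or.inl ⟨⟨i, hi, h1⟩, h1⟩⟩
    · obtain ⟨S, hS⟩ := h.cell hl
      obtain ⟨d, hd⟩ := S.ex hS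
      exact ⟨ρ S.j (pos ⟨S, l, hS⟩) d, Or.inr ⟨⟨S, l, hS⟩, d, by rw [← hd]⟩⟩
  choose τ hτ using hτ
  refine ⟨τ, hfin.toFinset, fun l => hfin.mem_toFinset.2 (hτ l), fun i hi =>
    hfin.mem_toFinset.2 (Or.inl ⟨⟨i, hi, rfl⟩, rfl⟩), ?_, ?_, ?_⟩
  · rw [hfin.coe_toFinset]
    exact mv_PI h H
  · rintro j0 q0 hq0 ⟨d, b, hb⟩ d'
    obtain ⟨b', hb'⟩ := mv_cl h H (yy_iff.1 hq0) (hfin.mem_toFinset.1 hb) d'
    exact ⟨b', hfin.mem_toFinset.2 hb'⟩
  · rintro j0 q0 hq0 ⟨d, b, hb⟩ d'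
    obtain ⟨b', hb'⟩ := mv_cl h H.symm (yy_iff.1 hq0) (mv_mem (hfin.mem_toFinset.1 hb)) d'
    exact ⟨b', hfin.mem_toFinset.2 (mv_mem hb')⟩

end Pool.H17.CB
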