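import Pool.Agent.H17.CB.Yc

/-!
# Decoding is sound: tuples with the same position are isomorphic
-/

set_option autoImplicit false

namespace Pool.H17.CB

open Set Pool.H62.VT Pool.H63.MQ Pool.H22.CO

variable {a : ℕ → ℕ} {k r m : ℕ} {s : Sh k} {x : Str a} {c : Fin k → ℕ}

/-- PROOF. `P` is the identity on `E0` (injectivity); the other points of its domain are in cells contained
in the domain (`cov`, closure). For each such cell choose an enumeration `q`; `P ∘ q` is an admissible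
enumeration, as the relations `A1`, `A2` of the code are preserved; the order is preserved. `Good.free`. -/
theorem sound (h : Good s (nu x) c r) {t t' : Fin m → ℕ}
    (ht : Mt' s (cE s (x, c)).1 c t t') : PI (nu x) (nu x) {p | ∃ l, p = (t l, t' l)} := by
  obtain ⟨P, h1, h2, h3, h4, h5⟩ := ht
  -- the cells contained in the domain
  let ι : Type := {S : Ce s (nu x) c // ∀ d, ∃ b, (S.q d, b) ∈ P}
  have hfin : Finite ι := by
    have h0 : ∀ i : ι, ∃ b, (i.1.q ⟨0, h.pos _⟩, b) ∈ P := fun i => i.2 _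
    choose b hb using h0
    refine Finite.of_injective (fun i : ι => (⟨(i.1.q ⟨0, h.pos _⟩, b i), hb i⟩ : P)) ?_
    intro i i' hii
    have h6 : i.1.q ⟨0, h.pos _⟩ = i'.1.q ⟨0, h.pos _⟩ := congrArg (fun z : P => z.1.1) hii
    exact Subtype.ext (h.cell_eq (i.1.mem _) (h6 ▸ i'.1.mem _))
  have h6 : ∀ (i : ι) (d : Fin (s.sz i.1.j)), ∃ b, (i.1.q d, b) ∈ P := fun i => i.2
  choose q' hq' using h6
  have hj : ∀ i : ι, AA s (nu x) c i.1.j (q' i) := fun i =>
    pi_AA h3 i.1.aa (hq' i)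
  have hfree := h.free ι (fun i => i.1.j) (fun i => i.1.q) q' (fun i => ⟨i.1.aa, hj i⟩) ?_ ?_ ?_
  · refine hfree.mono ?_
    rintro _ ⟨l, rfl⟩
    by_cases hl : t l ∈ E0 s c
    · refine Or.inl ⟨hl, ?_⟩
      obtain ⟨i, hi, he⟩ := hl
      have h7 := h2 i hi
      exact he.trans ((h3.2 _ h7 _ (h1 l)).1 he.symm)
    · obtain ⟨S, hS⟩ := h.cell hl
      obtain ⟨d, hd⟩ := S.ex hS
      have h7 : ∀ d, ∃ b, (S.q d, b) ∈ P :=
        h4 S.j S.q (yy_iff.2 S.aa) ⟨d, t' l, hd ▸ h1 l⟩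
      refine Or.inr ⟨⟨S, h7⟩, d, ?_⟩
      have h8 := hq' ⟨S, h7⟩ d
      have h9 : q' ⟨S, h7⟩ d = t' l := (h3.2 _ h8 _ (h1 l)).1 hd
      rw [h9, hd]
  · intro i i' hii d d' hdd
    exact hii (Subtype.ext (h.cell_eq (i.1.mem d) (hdd ▸ i'.1.mem d')))
  · intro i i' hii d d' hdd
    have h7 : i.1.q d = i'.1.q d' := (h3.2 _ (hq' i d) _ (hq' i' d')).2 hdd
    exact hii (Subtype.ext (h.cell_eq (i.1.mem d) (h7 ▸ i'.1.mem d')))
  · intro i i' j0 hji hji' d d' e e' ho
    have h7 := pi_O1 h3 ho (hq' i d) (hq' i' d')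
    exact h.oeq' (hj i) (hj i') hji hji' h7

end Pool.H17.CB
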