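import Pool.Agent.H17.CB.Cmp
import Pool.Agent.H17.CB.Snd

/-!
# Decoding the code gives the structure
-/

set_option autoImplicit false

namespace Pool.H17.CB

open Set Pool.H62.VT Pool.H63.MQ Pool.H22.CO

variable {a : ℕ → ℕ} {k r : ℕ} {s : Sh k} {x : Str a} {c : Fin k → ℕ}

/-- the unary relations in the code -/
theorem cE_even (n v : ℕ) : (cE s (x, c)).2 (2 * n) v = x n (fun _ => v) := by
  have h1 : 2 * n % 2 = 0 := by omega
  have h2 : 2 * n / 2 = n := by omega
  simp only [cE, h1, if_true]
  rw [h2]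

/-- the table in the code -/
theorem cE_odd (p : TI a k) (v : ℕ) :
    (cE s (x, c)).2 (2 * Encodable.encode p + 1) v = x p.1 (fun i => c (p.2 i)) := by
  have h1 : ¬ (2 * Encodable.encode p + 1) % 2 = 0 := by omega
  have h2 : (2 * Encodable.encode p + 1) / 2 = Encodable.encode p := by omega
  simp only [cE, if_neg h1, h2, Encodable.encodek]

theorem nu_true {n : ℕ} {t : Fin (a n) → ℕ} :
    nu x n t = true ↔ (∃ i j, t i ≠ t j) ∧ x n t = true := by
  simp only [nu, decide_eq_true_eq]

/-- PROOF. Constant tuples: the unary relations. Other tuples `t`: the entry of the table is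
`x n (c ∘ τ)`; if `Mt'` holds then `c ∘ τ` is not constant either (`P` is injective) and
`x n t = nu x n t = nu x n (c ∘ τ) = x n (c ∘ τ)` by `sound`; some `τ` exists by `complete`. -/
theorem dec (har : ∀ n, a n ≤ r) (h : Good s (nu x) c r) : cD s (cE s (x, c), c) = x := by
  funext n t
  have key : ∀ τ : Fin (a n) → Fin k, Mt' s (cE s (x, c)).1 c t (fun i => c (τ i)) →
      nu x n t = nu x n (fun i => c (τ i)) ∧ ∀ i j, t i ≠ t j → c (τ i) ≠ c (τ j) := by
    intro τ hτ
    have h1 := sound h hτ
    refine ⟨h1.1 n (fun i => (t i, c (τ i))) fun i => ⟨i, rfl⟩, fun i j hij he => hij ?_⟩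
    exact (h1.2 (t i, c (τ i)) ⟨i, rfl⟩ (t j, c (τ j)) ⟨j, rfl⟩).2 he
  rw [Bool.eq_iff_iff]
  by_cases ht : ∃ i j, t i ≠ t j
  · simp only [cD, if_pos ht, decide_eq_true_eq]
    constructor
    · rintro ⟨τ, h1, h2⟩
      obtain ⟨h3, h4⟩ := key τ h2
      have h5 : x n (fun i => c (τ i)) = true := by
        have h6 := h1 0
        rwa [cE_odd] at h6
      obtain ⟨i, j, hij⟩ := ht
      have h7 : nu x n (fun i => c (τ i)) = true := nu_true.2 ⟨⟨i, j, h4 i j hij⟩, h5⟩
      exact (nu_true.1 (h3.trans h7)).2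
    · intro h1
      obtain ⟨τ, h2⟩ := complete h (har n) t
      obtain ⟨h3, h4⟩ := key τ h2
      refine ⟨τ, fun v => ?_, h2⟩
      rw [cE_odd]
      exact (nu_true.1 (h3.symm.trans (nu_true.2 ⟨ht, h1⟩))).2
  · simp only [cD, if_neg ht, decide_eq_true_eq]
    have hc : ∀ i j, t i = t j := fun i j => by
      by_contra hne
      exact ht ⟨i, j, hne⟩
    constructor
    · intro h1
      by_cases h0 : Nonempty (Fin (a n))
      · obtain ⟨i0⟩ := h0
        have h2 := h1 (t i0) fun i => hc i i0
        rw [cE_even] at h2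
        have e : (fun _ => t i0) = t := funext fun i => hc i0 i
        rwa [e] at h2
      · have h2 := h1 0 fun i => absurd ⟨i⟩ h0
        rw [cE_even] at h2
        have e : (fun _ => 0) = t := funext fun i => absurd ⟨i⟩ h0
        rwa [e] at h2
    · intro h1 v hv
      rw [cE_even]
      have e : (fun _ => v) = t := funext fun i => (hv i).symm
      rwa [e]

end Pool.H17.CB
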