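import Pool.Agent.H5.AA.Def
import Pool.Agent.H22.CO.Ref
import Pool.Agent.H27.SP.Cod

/-!
# Coding of structures which are not wild: definitions

A shape `s : Sh k` contains the (finite) data of the coding with `k` parameters. `nu x` is `x` without
unary relations. The structure `nu x` is composed of finitely many named points `E0 s c`, of chain
families of cells (enumerations `A1`, order `O1`) and of symmetric families of cells (enumerations
`A2`). The code `cE s (x, c)` contains the enumerations and the order, the unary relations of `x` and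
the table of the truth values on the parameters. `cD s` decodes.
-/

set_option autoImplicit false

namespace Pool.H17.CB

open Set Pool.H62.VT Pool.H63.MQ Pool.H22.CO

variable {a : ℕ → ℕ} {k : ℕ}

/-- The reference configuration `(u, v, w)` is moved to `(q, q', z)` for some `z`, fixing `E`. -/
def CfR (M : Str a) (E : Set ℕ) {s l : ℕ} (u v : Fin s → ℕ) (w : Fin l → ℕ) (q q' : Fin s → ℕ) :
    Prop :=
  ∃ z : Fin l → ℕ, PI M M (idOn E ∪
    {p | (∃ d, p = (u d, q d)) ∨ (∃ d, p = (v d, q' d)) ∨ ∃ d, p = (w d, z d)})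

/-- data of a chain family: size of the cells, number of points of the context, reference -/
abbrev CF (k : ℕ) : Type :=
  Σ p : ℕ × ℕ, (Fin p.1 → Fin k) × (Fin p.1 → Fin k) × (Fin p.2 → Fin k)

/-- data of a symmetric family: size of the cells, reference -/
abbrev SF (k : ℕ) : Type := Σ m : ℕ, (Fin m → Fin k)

/-- shapes: parameters fixed in the recognition, all named parameters, the two lists of families -/
abbrev Sh (k : ℕ) : Type :=
  (Finset (Fin k) × Finset (Fin k)) × (Σ n : ℕ, Fin n → CF k) × (Σ n : ℕ, Fin n → SF k)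

/-- number of chain families -/
abbrev Sh.n1 (s : Sh k) : ℕ := s.2.1.1

/-- number of symmetric families -/
abbrev Sh.n2 (s : Sh k) : ℕ := s.2.2.1

/-- cell size of a chain family -/
abbrev Sh.s1 (s : Sh k) (j : Fin s.n1) : ℕ := (s.2.1.2 j).1.1

/-- number of context points of a chain family -/
abbrev Sh.l1 (s : Sh k) (j : Fin s.n1) : ℕ := (s.2.1.2 j).1.2

/-- first reference cell -/
abbrev Sh.u (s : Sh k) (j : Fin s.n1) : Fin (s.s1 j) → Fin k := (s.2.1.2 j).2.1

/-- second reference cell -/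
abbrev Sh.v (s : Sh k) (j : Fin s.n1) : Fin (s.s1 j) → Fin k := (s.2.1.2 j).2.2.1

/-- context of the reference -/
abbrev Sh.w (s : Sh k) (j : Fin s.n1) : Fin (s.l1 j) → Fin k := (s.2.1.2 j).2.2.2

/-- cell size of a symmetric family -/
abbrev Sh.s2 (s : Sh k) (j : Fin s.n2) : ℕ := (s.2.2.2 j).1

/-- reference cell of a symmetric family -/
abbrev Sh.z (s : Sh k) (j : Fin s.n2) : Fin (s.s2 j) → Fin k := (s.2.2.2 j).2

/-- the points fixed in the recognition -/
def EE (s : Sh k) (c : Fin k → ℕ) : Set ℕ := {y | ∃ i ∈ s.1.1, y = c i}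

/-- the named points -/
def E0 (s : Sh k) (c : Fin k → ℕ) : Set ℕ := {y | ∃ i ∈ s.1.2, y = c i}

/-- `q`, `q'` are admissible enumerations of cells of the chain family `j`, the first below the
second -/
def Cf (s : Sh k) (M : Str a) (c : Fin k → ℕ) (j : Fin s.n1) (q q' : Fin (s.s1 j) → ℕ) : Prop :=
  CfR M (EE s c) (fun d => c (s.u j d)) (fun d => c (s.v j d)) (fun d => c (s.w j d)) q q'

/-- admissible enumerations of the cells of the chain family `j` -/
def A1 (s : Sh k) (M : Str a) (c : Fin k → ℕ) (j : Fin s.n1) (q : Fin (s.s1 j) → ℕ) : Prop :=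
  ∃ q', Cf s M c j q q' ∨ Cf s M c j q' q

/-- the cell of `p` is below the cell of `p'` -/
def O1 (s : Sh k) (M : Str a) (c : Fin k → ℕ) (j : Fin s.n1) (p p' : ℕ) : Prop :=
  ∃ q q', Cf s M c j q q' ∧ (∃ d, q d = p) ∧ ∃ d, q' d = p'

/-- the points of the symmetric part -/
def DD (s : Sh k) (M : Str a) (c : Fin k → ℕ) : Set ℕ :=
  {y | y ∉ E0 s c ∧ ∀ j q, A1 s M c j q → ∀ d, q d ≠ y}

/-- admissible enumerations of the cells of the symmetric family `j`: they can be exchanged with the
reference cell -/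
def A2 (s : Sh k) (M : Str a) (c : Fin k → ℕ) (j : Fin s.n2) (q : Fin (s.s2 j) → ℕ) : Prop :=
  AsQ M (DD s M c) (fun d => c (s.z j d)) q

/-- indices of all families -/
abbrev Sh.J (s : Sh k) : Type := Fin s.n1 ⊕ Fin s.n2

/-- cell sizes -/
abbrev Sh.sz (s : Sh k) : s.J → ℕ := Sum.elim s.s1 s.s2

/-- admissible enumerations of all families -/
def AA (s : Sh k) (M : Str a) (c : Fin k → ℕ) : ∀ j : s.J, (Fin (s.sz j) → ℕ) → Prop
  | Sum.inl j => A1 s M c j
  | Sum.inr j => A2 s M c j

/-- The structure `M` is composed of the named points and the families of the shape `s`. `r` bounds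
the arities. -/
structure Good (s : Sh k) (M : Str a) (c : Fin k → ℕ) (r : ℕ) : Prop where
  pos : ∀ j, 0 < s.sz j
  inj : ∀ j q, AA s M c j q → Function.Injective q
  out : ∀ j q, AA s M c j q → ∀ d, q d ∉ E0 s c
  /-- different cells are disjoint -/
  dis : ∀ j q j' q', AA s M c j q → AA s M c j' q' → (∃ d d', q d = q' d') →
    j = j' ∧ range q = range q'
  /-- all points are named or in cells -/
  cov : ∀ y, y ∉ E0 s c → ∃ j q, AA s M c j q ∧ ∃ d, q d = y
  /-- the admissible label changes are the same for all cells of a family -/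
  lab : ∀ j q q' (γ : Equiv.Perm (Fin (s.sz j))), AA s M c j q → AA s M c j (fun d => q (γ d)) →
    AA s M c j q' → AA s M c j (fun d => q' (γ d))
  oeq : ∀ j q q' d e d' e', A1 s M c j q → A1 s M c j q' → O1 s M c j (q d) (q' d') →
    O1 s M c j (q e) (q' e')
  irr : ∀ j q d e, A1 s M c j q → ¬ O1 s M c j (q d) (q e)
  tr : ∀ j p p' p'', O1 s M c j p p' → O1 s M c j p' p'' → O1 s M c j p p''
  tot : ∀ j q q' d d', A1 s M c j q → A1 s M c j q' → range q ≠ range q' →
    O1 s M c j (q d) (q' d') ∨ O1 s M c j (q' d') (q d)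
  /-- cells can be moved, preserving the families and the order of the chain families -/
  free : ∀ (ι : Type) [Finite ι] (j : ι → s.J) (q q' : ∀ i, Fin (s.sz (j i)) → ℕ),
    (∀ i, AA s M c (j i) (q i) ∧ AA s M c (j i) (q' i)) →
    (∀ i i', i ≠ i' → ∀ d d', q i d ≠ q i' d') → (∀ i i', i ≠ i' → ∀ d d', q' i d ≠ q' i' d') →
    (∀ i i' j0, j i = Sum.inl j0 → j i' = Sum.inl j0 → ∀ d d' e e',
      O1 s M c j0 (q i d) (q i' d') → O1 s M c j0 (q' i e) (q' i' e')) →
    PI M M (idOn (E0 s c) ∪ {p | ∃ i d, p = (q i d, q' i d)})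
  /-- the parameters contain `r` cells of every chain family -/
  ref1 : ∀ j, ∃ ρ : Fin r → Fin (s.s1 j) → Fin k, (∀ i, A1 s M c j (fun d => c (ρ i d))) ∧
    ∀ i i', i < i' → ∀ d d', O1 s M c j (c (ρ i d)) (c (ρ i' d'))
  /-- the parameters contain `r` cells of every symmetric family -/
  ref2 : ∀ j, ∃ ρ : Fin r → Fin (s.s2 j) → Fin k, (∀ i, A2 s M c j (fun d => c (ρ i d))) ∧
    ∀ i i', i ≠ i' → ∀ d d', c (ρ i d) ≠ c (ρ i' d')

/-! ### The code -/

/-- the language of the codes: every arity occurs infinitely often -/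
def bb (n : ℕ) : ℕ := n.unpair.1

/-- the tuples `t` and `q` are equal -/
def Sm {m m' : ℕ} (t : Fin m → ℕ) (q : Fin m' → ℕ) : Prop :=
  m = m' ∧ ∀ (i : Fin m) (i' : Fin m'), (i : ℕ) = i' → t i = q i'

/-- the relations of the code -/
def Rl (s : Sh k) (M : Str a) (c : Fin k → ℕ) (n : ℕ) (t : Fin (bb n) → ℕ) : Prop :=
  (∃ j : Fin s.n1, n.unpair.2 = 3 * j ∧ ∃ q, A1 s M c j q ∧ Sm t q) ∨
  (∃ j : Fin s.n1, n.unpair.2 = 3 * j + 1 ∧ ∃ q : Fin 2 → ℕ, O1 s M c j (q 0) (q 1) ∧ Sm t q) ∨
  ∃ j : Fin s.n2, n.unpair.2 = 3 * j + 2 ∧ ∃ q, A2 s M c j q ∧ Sm t q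

/-- indices of the table -/
abbrev TI (a : ℕ → ℕ) (k : ℕ) : Type := Σ n : ℕ, (Fin (a n) → Fin k)

open Classical in
/-- The code of `x`. Unary relation `2 n`: the unary relation of the symbol `n`; unary relation
`2 m + 1`: the entry `m` of the table. -/
noncomputable def cE (s : Sh k) (z : Str a × (Fin k → ℕ)) : Ex bb :=
  (fun n t => decide (Rl s (nu z.1) z.2 n t),
   fun m v => if m % 2 = 0 then z.1 (m / 2) (fun _ => v) else
    match (Encodable.decode (m / 2) : Option (TI a k)) with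
    | some p => z.1 p.1 (fun i => z.2 (p.2 i))
    | none => false)

/-- enumerations of the cells of the chain family `j`, read in the code -/
def Y1 (s : Sh k) (y : Str bb) (j : Fin s.n1) (q : Fin (s.s1 j) → ℕ) : Prop :=
  ∃ t : Fin (bb (Nat.pair (s.s1 j) (3 * j))) → ℕ, y (Nat.pair (s.s1 j) (3 * j)) t = true ∧ Sm t q

/-- enumerations of the cells of the symmetric family `j`, read in the code -/
def Y2 (s : Sh k) (y : Str bb) (j : Fin s.n2) (q : Fin (s.s2 j) → ℕ) : Prop :=
  ∃ t : Fin (bb (Nat.pair (s.s2 j) (3 * j + 2))) → ℕ,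
    y (Nat.pair (s.s2 j) (3 * j + 2)) t = true ∧ Sm t q

/-- enumerations of cells, read in the code -/
def YY (s : Sh k) (y : Str bb) : ∀ j : s.J, (Fin (s.sz j) → ℕ) → Prop
  | Sum.inl j => Y1 s y j
  | Sum.inr j => Y2 s y j

/-- The tuples `t` and `t'` have the same position with respect to the code: some finite partial
isomorphism of the code, whose domain and range are closed under cells, fixes the named points and
maps `t` to `t'`. -/
def Mt' (s : Sh k) (y : Str bb) (c : Fin k → ℕ) {m : ℕ} (t t' : Fin m → ℕ) : Prop :=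
  ∃ P : Finset (ℕ × ℕ), (∀ l, (t l, t' l) ∈ P) ∧ (∀ i ∈ s.1.2, (c i, c i) ∈ P) ∧
    PI y y (P : Set (ℕ × ℕ)) ∧
    (∀ j q, YY s y j q → (∃ d b, (q d, b) ∈ P) → ∀ d, ∃ b, (q d, b) ∈ P) ∧
    ∀ j q, YY s y j q → (∃ d b, (b, q d) ∈ P) → ∀ d, ∃ b, (b, q d) ∈ P

open Classical in
/-- Decoding. -/
noncomputable def cD (s : Sh k) (z : Ex bb × (Fin k → ℕ)) : Str a := fun n t =>
  if ∃ i j, t i ≠ t j then
    decide (∃ τ : Fin (a n) → Fin k,
      (∀ v, z.1.2 (2 * Encodable.encode (⟨n, τ⟩ : TI a k) + 1) v = true) ∧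
        Mt' s z.1.1 z.2 t (fun i => z.2 (τ i)))
  else decide (∀ v, (∀ i, t i = v) → z.1.2 (2 * n) v = true)

instance (k : ℕ) : Countable (Sh k) := inferInstance

end Pool.H17.CB
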