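import Pool.Agent.H17.CB.Tm
import Pool.Agent.H22.CO.Her
import Pool.Agent.H27.SP.Dich

/-!
# The Vaught dichotomy for Borel classes: members with few substructures
-/

set_option autoImplicit false

namespace Pool.H17.CB

open Pool.H62.VT (Str)
open Function Set Pool.H17.HS Pool.H22.CO

variable {r : ℕ} {a : ℕ → ℕ}

/-- The members of a Borel class which have few substructures (unary relations forgotten) or lie
hereditarily in the class; `r` bounds the arities. -/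
theorem final_bor (har : ∀ n, a n ≤ r) (hr : 2 ≤ r) (B : Set (Str a))
    (hB : @MeasurableSet (Str a) (borel (Str a)) B)
    (hinv : ∀ x y : Str a, (∃ σ, IsoV σ x y) → x ∈ B → y ∈ B) :
    (∃ C : Set (Str a), C.Countable ∧ ∀ x ∈ B,
      (Few x ∨ ∃ F : Finset ℕ, ∀ f : ℕ → ℕ, Injective f → (∀ i ∈ F, i ∈ range f) → sub x f ∈ B) →
        ∃ c ∈ C, ∃ σ, IsoV σ x c) ∨
      (∃ P : Set (Str a), P.Nonempty ∧ Perfect P ∧ P ⊆ B ∧
        ∀ x ∈ P, ∀ y ∈ P, (∃ σ, IsoV σ x y) → x = y) := by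
  by_cases hp : ∃ P : Set (Str a), P.Nonempty ∧ Perfect P ∧ P ⊆ B ∧
        ∀ x ∈ P, ∀ y ∈ P, (∃ σ, IsoV σ x y) → x = y
  · exact Or.inr hp
  · left
    rcases Pool.H27.SP.dich_of_tame (tame_nonwild (a := a) har hr) B hB hinv with ⟨C, hC, h⟩ | h
    · refine ⟨C, hC, fun x hx hx2 => h x hx ?_⟩
      intro hw
      rcases hx2 with ⟨F, hF⟩ | ⟨F, hF⟩
      · obtain ⟨P, h1, h2, h3, h4⟩ := Pool.H17.TD.wild_perf (nu x) hw F
        refine hF ⟨P, h1, h2, fun y hy => ?_, h4⟩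
        obtain ⟨f, hf1, hf2, rfl⟩ := h3 y hy
        exact ⟨f, hf1, hf2, sub_nu x hf1⟩
      · obtain ⟨P, h1, h2, h3, h4⟩ := Pool.H17.TD.wild_perf x (wild_of_nu hw) F
        refine hp ⟨P, h1, h2, fun y hy => ?_, h4⟩
        obtain ⟨f, hf1, hf2, rfl⟩ := h3 y hy
        exact hF f hf1 hf2
    · exact absurd h hp

end Pool.H17.CB
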