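import Pool.Agent.H17.CB.Def
import Pool.Agent.H22.CO.RefS

/-!
# The symmetric part
-/

set_option autoImplicit false

namespace Pool.H17.CB

open Set Pool.H62.VT Pool.H22.CO Pool.H22.SY

variable {a : ℕ → ℕ} {M : Str a} {D X : Set ℕ} {m : ℕ} {z q : Fin m → ℕ}

/-- symmetric part of `M`: finitely many named points `X` (they contain the reference cells `z j`) and
symmetric families of cells -/
structure SP (M : Str a) (D X : Set ℕ) {n : ℕ} (m : Fin n → ℕ) (z : ∀ j, Fin (m j) → ℕ) : Prop where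
  fin : X.Finite
  sub : X ⊆ D
  pos : ∀ j, 0 < m j
  zX : ∀ j d, z j d ∈ X
  dis : ∀ j q j' q', AsQ M (D \ X) (z j) q → AsQ M (D \ X) (z j') q' → (∃ d d', q d = q' d') →
    j = j' ∧ range q = range q'
  cov : ∀ y ∈ D \ X, ∃ j q, AsQ M (D \ X) (z j) q ∧ ∃ d, q d = y
  lab : ∀ j q q' (γ : Equiv.Perm (Fin (m j))), AsQ M (D \ X) (z j) q →
    AsQ M (D \ X) (z j) (fun d => q (γ d)) → AsQ M (D \ X) (z j) q' →
    AsQ M (D \ X) (z j) (fun d => q' (γ d))
  inf : ∀ j (r : ℕ), ∃ ρ : Fin r → Fin (m j) → ℕ, (∀ i, AsQ M (D \ X) (z j) (ρ i)) ∧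
    ∀ i i', i ≠ i' → ∀ d d', ρ i d ≠ ρ i' d'
  free : ∀ (ι : Type) [Finite ι] (j : ι → Fin n) (q q' : ∀ i, Fin (m (j i)) → ℕ),
    (∀ i, AsQ M (D \ X) (z (j i)) (q i) ∧ AsQ M (D \ X) (z (j i)) (q' i)) →
    (∀ i i', i ≠ i' → ∀ d d', q i d ≠ q i' d') → (∀ i i', i ≠ i' → ∀ d d', q' i d ≠ q' i' d') →
    ∃ g ∈ Au M D, (∀ y ∈ X, g y = y) ∧ ∀ i d, g (q i d) = q' i d

/-- conjugating an exchange -/
theorem swf_conj {g : Equiv.Perm ℕ} {q' : Fin m → ℕ} (hz : Function.Injective z)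
    (hq : Function.Injective q) (hzq : ∀ d d', q d ≠ z d') (hgz : ∀ d, g (z d) = z d)
    (hgq : ∀ d, g (q d) = q' d) (y : ℕ) : g (swf z q y) = swf z q' (g y) := by
  have hq' : Function.Injective q' := by
    intro d d' h
    rw [← hgq, ← hgq] at h
    exact hq (g.injective h)
  have hzq' : ∀ d d', q' d ≠ z d' := by
    intro d d' h
    rw [← hgq, ← hgz] at h
    exact hzq _ _ (g.injective h)
  by_cases h1 : ∃ d, y = z d
  · obtain ⟨d, rfl⟩ := h1
    rw [swf_z hz, hgz, swf_z hz, hgq]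
  · by_cases h2 : ∃ d, y = q d
    · obtain ⟨d, rfl⟩ := h2
      rw [swf_q hq hzq, hgq, swf_q hq' hzq', hgz]
    · push Not at h1 h2
      rw [swf_out h1 h2, swf_out (fun d h => h1 d ?_) (fun d h => h2 d ?_)]
      · rw [← hgz] at h
        exact g.injective h
      · rw [← hgq] at h
        exact g.injective h

/-- a cellular set is composed of finitely many points and symmetric families -/
theorem sym_part (M : Str a) (D : Set ℕ) (hD : HCl M D) :
    ∃ (X : Set ℕ) (n : ℕ) (m : Fin n → ℕ) (z : ∀ j, Fin (m j) → ℕ), SP M D X m z := by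
  classical
  obtain ⟨X, n, m, z, h⟩ := sq_of hD
  have e1 : ∀ j q, AsQ M (D \ X) (z j) q ↔ AsQ M D (z j) q := by
    intro j q
    constructor
    · rintro ⟨h1, h2, h3⟩
      exact ⟨h1, fun d => (h2 d).1, h3⟩
    · intro h1
      exact ⟨h1.1, fun d => ⟨h1.2.1 d, h.out j q h1 d⟩, h1.2.2⟩
  have hne : ∀ {m₁ m₂ : ℕ} (q : Fin m₁ → ℕ) (q' : Fin m₂ → ℕ), 0 < m₁ → (∀ d d', q d ≠ q' d') →
      range q ≠ range q' := by
    intro m₁ m₂ q q' h1 h2 h3
    have h4 : q ⟨0, h1⟩ ∈ range q' := by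
      rw [← h3]
      exact mem_range_self _
    obtain ⟨d, hd⟩ := h4
    exact h2 _ _ hd.symm
  refine ⟨X, n, m, z, ⟨h.fin, h.sub, h.pos, h.zX, ?_, ?_, ?_, ?_, ?_⟩⟩
  · intro j q j' q' h1 h2 h3
    exact h.dj j j' q q' ((e1 j q).1 h1) ((e1 j' q').1 h2) h3
  · intro y hy
    obtain ⟨j, q, d, h1, h2⟩ := h.cov y hy.1 hy.2
    exact ⟨j, q, (e1 j q).2 h1, d, h2⟩
  · intro j q q' γ h1 h2 h3
    rw [e1] at h1 h2 h3 ⊢
    obtain ⟨g, hg, hgX, hgq⟩ := h.free Unit (fun _ => j) (fun _ => q) (fun _ => q') inferInstance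
      (fun _ => h1) (fun _ => h3) (fun i i' hi => absurd rfl hi) (fun i i' hi => absurd rfl hi)
    have hgz : ∀ d, g (z j d) = z j d := fun d => hgX _ (h.zX j d)
    have hgq' : ∀ d, g (q d) = q' d := fun d => hgq () d
    refine ⟨h3.1.comp γ.injective, fun d => h3.2.1 _, fun d d' => h3.2.2.1 _ _, fun n t => ?_⟩
    have hsw := swf_conj (g := g) (q' := fun d => q' (γ d)) (h.zinj j) h2.1 h2.2.2.1 hgz
      (fun d => hgq' (γ d))
    have e2 : ∀ y, swf (z j) (fun d => q' (γ d)) y = g (swf (z j) (fun d => q (γ d)) (g⁻¹ y)) := by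
      intro y
      rw [hsw]
      congr 1
      exact (g.apply_symm_apply y).symm
    simp only [e2]
    rw [hg.1 n (fun i => swf (z j) (fun d => q (γ d)) (g⁻¹ (t i))), h2.2.2.2 n (fun i => g⁻¹ (t i))]
    have hg' := (Au M D).inv_mem hg
    exact hg'.1 n t
  · intro j r
    induction r with
    | zero => exact ⟨fun i => i.elim0, fun i => i.elim0, fun i => i.elim0⟩
    | succ r ih =>
      obtain ⟨ρ, h1, h2⟩ := ih
      obtain ⟨q, hq, hq2⟩ := h.inf j {y | ∃ i d, ρ i d = y} (by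
        have : {y | ∃ i d, ρ i d = y} = range fun p : Fin r × Fin (m j) => ρ p.1 p.2 := by
          ext y
          simp
        rw [this]
        exact finite_range _)
      refine ⟨Fin.cons q ρ, ?_, ?_⟩
      · intro i
        refine Fin.cases ?_ (fun i => ?_) i
        · rw [e1]
          exact hq
        · exact h1 i
      · intro i
        refine Fin.cases ?_ (fun i => ?_) i
        · intro i'
          refine Fin.cases (fun h => absurd rfl h) (fun i' _ d d' hd => ?_) i'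
          exact hq2 d ⟨i', d', hd.symm⟩
        · intro i'
          refine Fin.cases (fun _ d d' hd => ?_) (fun i' hi d d' hd => ?_) i'
          · exact hq2 d' ⟨i, d, hd⟩
          · exact h2 i i' (fun h => hi (by rw [h])) d d' hd
  · intro ι _ j q q' h1 h2 h3
    refine h.free ι j q q' inferInstance (fun i => (e1 _ _).1 (h1 i).1) (fun i => (e1 _ _).1 (h1 i).2)
      (fun i i' hi => hne _ _ (h.pos _) (h2 i i' hi)) (fun i i' hi => hne _ _ (h.pos _) (h3 i i' hi))

end Pool.H17.CB
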