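import Pool.Agent.H17.CB.Gd1
import Pool.Agent.H17.CB.Gd2

/-!
# Structures which are not wild are coded
-/

set_option autoImplicit false

namespace Pool.H17.CB

open Set Pool.H62.VT Pool.H63.MQ Pool.H22.CO

variable {a : ℕ → ℕ} {r : ℕ}

theorem exists_enum {Q : Set ℕ} (hQ : Q.Finite) : ∃ (k : ℕ) (c : Fin k → ℕ), range c = Q := by
  have := hQ.to_subtype
  obtain ⟨l, ⟨e⟩⟩ := Finite.exists_equiv_fin Q
  refine ⟨l, fun i => (e.symm i : ℕ), ?_⟩
  ext y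
  constructor
  · rintro ⟨i, rfl⟩
    exact (e.symm i).2
  · intro hy
    exact ⟨e ⟨y, hy⟩, by simp⟩

theorem aa_inl {k : ℕ} (s : Sh k) (M : Str a) (c : Fin k → ℕ) (jj : s.J) (j : Fin s.n1)
    (h : jj = Sum.inl j) (q : Fin (s.sz jj) → ℕ) :
    AA s M c jj q ↔ A1 s M c j (fun d => q (Fin.cast (by subst h; rfl) d)) := by
  subst h
  rfl

theorem aa_inr {k : ℕ} (s : Sh k) (M : Str a) (c : Fin k → ℕ) (jj : s.J) (j : Fin s.n2)
    (h : jj = Sum.inr j) (q : Fin (s.sz jj) → ℕ) :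
    AA s M c jj q ↔ A2 s M c j (fun d => q (Fin.cast (by subst h; rfl) d)) := by
  subst h
  rfl

theorem good (har : ∀ n, a n ≤ r) (hr : 2 ≤ r) (M : Str a)
    (hW : ¬ Pool.H22.VC.Wild (Pool.H22.VN.cod r M) univ) :
    ∃ (k : ℕ) (s : Sh k) (c : Fin k → ℕ), Good s M c r := by
  classical
  obtain ⟨E, n, s, l, u, v, w, hC⟩ := chain_part har hr M hW
  obtain ⟨X, n2, m, z, hS⟩ := sym_part M _ hC.rest
  choose ρ1 hρ1 hρ1' using fun j => hC.inf j r
  choose ρ2 hρ2 hρ2' using fun j => hS.inf j r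
  -- the parameters
  let ix : Type := (Σ j : Fin n, Fin (s j)) ⊕ (Σ j : Fin n, Fin (s j)) ⊕ (Σ j : Fin n, Fin (l j)) ⊕
    (Σ j : Fin n, Fin r × Fin (s j)) ⊕ (Σ j : Fin n2, Fin (m j)) ⊕ (Σ j : Fin n2, Fin r × Fin (m j))
  let f : ix → ℕ := Sum.elim (fun p => u p.1 p.2) <| Sum.elim (fun p => v p.1 p.2) <|
    Sum.elim (fun p => w p.1 p.2) <| Sum.elim (fun p => ρ1 p.1 p.2.1 p.2.2) <|
    Sum.elim (fun p => z p.1 p.2) (fun p => ρ2 p.1 p.2.1 p.2.2)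
  have hfin : Finite ix := inferInstance
  have hQ : (E ∪ X ∪ range f).Finite := (hC.fin.union hS.fin).union (finite_range f)
  obtain ⟨k, c, hc⟩ := exists_enum hQ
  have hidx : ∀ y, y ∈ E ∪ X ∪ range f → ∃ i, c i = y := by
    intro y hy
    rw [← hc] at hy
    exact hy
  have hf : ∀ p : ix, ∃ i, c i = f p := fun p => hidx _ (Or.inr (mem_range_self p))
  choose F hF using hf
  let sh : Sh k := ((Finset.univ.filter (fun i => c i ∈ E), Finset.univ.filter (fun i => c i ∈ E ∪ X)),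
    ⟨n, fun j => ⟨(s j, l j), (fun d => F (Sum.inl ⟨j, d⟩), fun d => F (Sum.inr (Sum.inl ⟨j, d⟩)),
      fun d => F (Sum.inr (Sum.inr (Sum.inl ⟨j, d⟩))))⟩⟩,
    ⟨n2, fun j => ⟨m j, fun d => F (Sum.inr (Sum.inr (Sum.inr (Sum.inr (Sum.inl ⟨j, d⟩)))))⟩⟩)
  have hEE : EE sh c = E := by
    ext y
    constructor
    · rintro ⟨i, hi, rfl⟩
      exact (Finset.mem_filter.1 hi).2
    · intro hy
      obtain ⟨i, rfl⟩ := hidx y (Or.inl (Or.inl hy))
      exact ⟨i, Finset.mem_filter.2 ⟨Finset.mem_univ _, hy⟩, rfl⟩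
  have hE0 : E0 sh c = E ∪ X := by
    ext y
    constructor
    · rintro ⟨i, hi, rfl⟩
      exact (Finset.mem_filter.1 hi).2
    · intro hy
      obtain ⟨i, rfl⟩ := hidx y (Or.inl hy)
      exact ⟨i, Finset.mem_filter.2 ⟨Finset.mem_univ _, hy⟩, rfl⟩
  have hCf : ∀ (j : Fin n) (q q' : Fin (s j) → ℕ),
      Cf sh M c j q q' = Pool.H5.AC.CfR M E (u j) (v j) (w j) q q' := by
    intro j q q'
    have e1 : (fun d => c (sh.u j d)) = u j := funext fun d => hF (Sum.inl ⟨j, d⟩)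
    have e2 : (fun d => c (sh.v j d)) = v j := funext fun d => hF (Sum.inr (Sum.inl ⟨j, d⟩))
    have e3 : (fun d => c (sh.w j d)) = w j :=
      funext fun d => hF (Sum.inr (Sum.inr (Sum.inl ⟨j, d⟩)))
    unfold Cf
    rw [hEE, e1, e2, e3]
    rfl
  have hCf' : ∀ (j : Fin n) (q q' : Fin (s j) → ℕ),
      Cf sh M c j q q' = CfR M E (u j) (v j) (w j) q q' := hCf
  have hA1 : ∀ (j : Fin n) (q : Fin (s j) → ℕ), A1 sh M c j q ↔ A1' M E (u j) (v j) (w j) q := by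
    intro j q
    unfold A1 A1'
    simp only [hCf']
    exact Iff.rfl
  have hO1 : ∀ (j : Fin n) (p p' : ℕ), O1 sh M c j p p' ↔ O1' M E (u j) (v j) (w j) p p' := by
    intro j p p'
    unfold O1 O1'
    simp only [hCf']
    exact Iff.rfl
  have hDD : DD sh M c = D1' M E s l u v w \ X := by
    ext y
    constructor
    · rintro ⟨h1, h2⟩
      rw [hE0] at h1
      exact ⟨⟨fun h => h1 (Or.inl h), fun j q hq => h2 j q ((hA1 j q).2 hq)⟩,
        fun h => h1 (Or.inr h)⟩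
    · rintro ⟨⟨h1, h2⟩, h3⟩
      refine ⟨?_, fun j q hq => h2 j q ((hA1 j q).1 hq)⟩
      rw [hE0]
      rintro (h | h)
      · exact h1 h
      · exact h3 h
  have hA2 : ∀ (j : Fin n2) (q : Fin (m j) → ℕ),
      A2 sh M c j q ↔ AsQ M (D1' M E s l u v w \ X) (z j) q := by
    intro j q
    have e1 : (fun d => c (sh.z j d)) = z j :=
      funext fun d => hF (Sum.inr (Sum.inr (Sum.inr (Sum.inr (Sum.inl ⟨j, d⟩)))))
    unfold A2
    rw [hDD, e1]
  have hnc : ∀ y ∈ D1' M E s l u v w, ∀ (j : Fin n) (q : Fin (s j) → ℕ), A1 sh M c j q →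
      ∀ d, q d ≠ y := fun y hy j q hq => hy.2 j q ((hA1 j q).1 hq)
  refine ⟨k, sh, c, ?_⟩
  refine { pos := ?_, inj := ?_, out := ?_, dis := ?_, cov := ?_, lab := ?_, oeq := ?_, irr := ?_
           tr := ?_, tot := ?_, free := ?_, ref1 := ?_, ref2 := ?_ }
  · rintro (j | j)
    · exact hC.pos j
    · exact hS.pos j
  · rintro (j | j) q hq
    · exact hC.inj j q ((hA1 j q).1 hq)
    · exact ((hA2 j q).1 hq).1
  · rintro (j | j) q hq d
    · rw [hE0]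
      rintro (h | h)
      · exact hC.out j q ((hA1 j q).1 hq) d h
      · exact hnc _ (hS.sub h) j q hq d rfl
    · rw [hE0]
      have h1 := ((hA2 j q).1 hq).2.1 d
      rintro (h | h)
      · exact h1.1.1 h
      · exact h1.2 h
  · rintro (j | j) q (j' | j') q' hq hq' ⟨d, d', h⟩
    · obtain ⟨h1, h2⟩ := hC.dis j q j' q' ((hA1 j q).1 hq) ((hA1 j' q').1 hq') ⟨d, d', h⟩
      exact ⟨by rw [h1], h2⟩
    · exact absurd h (hnc _ (((hA2 j' q').1 hq').2.1 d').1 j q hq d)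
    · exact absurd h.symm (hnc _ (((hA2 j q).1 hq).2.1 d).1 j' q' hq' d')
    · obtain ⟨h1, h2⟩ := hS.dis j q j' q' ((hA2 j q).1 hq) ((hA2 j' q').1 hq') ⟨d, d', h⟩
      exact ⟨by rw [h1], h2⟩
  · intro y hy
    rw [hE0] at hy
    by_cases h : ∃ (j : Fin n) (q : Fin (s j) → ℕ), A1 sh M c j q ∧ ∃ d, q d = y
    · obtain ⟨j, q, h1, h2⟩ := h
      exact ⟨Sum.inl j, q, h1, h2⟩
    · push Not at h
      obtain ⟨j, q, h1, h2⟩ := hS.cov y ⟨⟨fun h' => hy (Or.inl h'),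
        fun j q hq => h j q ((hA1 j q).2 hq)⟩, fun h' => hy (Or.inr h')⟩
      exact ⟨Sum.inr j, q, (hA2 j q).2 h1, h2⟩
  · rintro (j | j) q q' γ h1 h2 h3
    · exact (hA1 j _).2 (hC.lab j q q' γ ((hA1 j q).1 h1) ((hA1 j _).1 h2) ((hA1 j q').1 h3))
    · exact (hA2 j _).2 (hS.lab j q q' γ ((hA2 j q).1 h1) ((hA2 j _).1 h2) ((hA2 j q').1 h3))
  · intro j q q' d e d' e' h1 h2 h3
    exact (hO1 j _ _).2 (hC.oeq j q q' d e d' e' ((hA1 j q).1 h1) ((hA1 j q').1 h2)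
      ((hO1 j _ _).1 h3))
  · intro j q d e h1 h2
    exact hC.irr j q d e ((hA1 j q).1 h1) ((hO1 j _ _).1 h2)
  · intro j p p' p'' h1 h2
    exact (hO1 j _ _).2 (hC.tr j p p' p'' ((hO1 j _ _).1 h1) ((hO1 j _ _).1 h2))
  · intro j q q' d d' h1 h2 h3
    rcases hC.tot j q q' d d' ((hA1 j q).1 h1) ((hA1 j q').1 h2) h3 with h | h
    · exact Or.inl ((hO1 j _ _).2 h)
    · exact Or.inr ((hO1 j _ _).2 h)
  · intro ι _ j q q' hq hd hd' ho
    -- the symmetric families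
    let ι2 : Type := {p : ι × Fin n2 // j p.1 = Sum.inr p.2}
    let ι1 : Type := {p : ι × Fin n // j p.1 = Sum.inl p.2}
    have c1 : ∀ p : ι1, s p.1.2 = sh.sz (j p.1.1) := fun p => by rw [p.2]; rfl
    have c2 : ∀ p : ι2, m p.1.2 = sh.sz (j p.1.1) := fun p => by rw [p.2]; rfl
    have hι2 : Finite ι2 := inferInstance
    have hι1 : Finite ι1 := inferInstance
    have hneq2 : ∀ p p' : ι2, p ≠ p' → p.1.1 ≠ p'.1.1 := by
      rintro ⟨⟨i, j1⟩, h1⟩ ⟨⟨i', j1'⟩, h1'⟩ hne h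
      simp only at h h1 h1'
      subst h
      rw [h1] at h1'
      exact hne (by simp only [Sum.inr.injEq] at h1'; subst h1'; rfl)
    have hneq1 : ∀ p p' : ι1, p ≠ p' → p.1.1 ≠ p'.1.1 := by
      rintro ⟨⟨i, j1⟩, h1⟩ ⟨⟨i', j1'⟩, h1'⟩ hne h
      simp only at h h1 h1'
      subst h
      rw [h1] at h1'
      exact hne (by simp only [Sum.inl.injEq] at h1'; subst h1'; rfl)
    obtain ⟨g, hg, hgX, hgq⟩ := hS.free ι2 (fun p => p.1.2)
      (fun p d => q p.1.1 (Fin.cast (c2 p) d)) (fun p d => q' p.1.1 (Fin.cast (c2 p) d))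
      (fun p => ⟨(hA2 _ _).1 ((aa_inr sh M c _ _ p.2 _).1 (hq p.1.1).1),
        (hA2 _ _).1 ((aa_inr sh M c _ _ p.2 _).1 (hq p.1.1).2)⟩)
      (fun p p' hpp d d' => hd _ _ (hneq2 p p' hpp) _ _)
      (fun p p' hpp d d' => hd' _ _ (hneq2 p p' hpp) _ _)
    have h1 := hC.free ι1 (fun p => p.1.2)
      (fun p d => q p.1.1 (Fin.cast (c1 p) d)) (fun p d => q' p.1.1 (Fin.cast (c1 p) d))
      (fun p => ⟨(hA1 _ _).1 ((aa_inl sh M c _ _ p.2 _).1 (hq p.1.1).1),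
        (hA1 _ _).1 ((aa_inl sh M c _ _ p.2 _).1 (hq p.1.1).2)⟩)
      (fun p p' hpp d d' => hd _ _ (hneq1 p p' hpp) _ _)
      (fun p p' hpp d d' => hd' _ _ (hneq1 p p' hpp) _ _)
      (by
        intro p p' j0 h2 h3 d d' e e' h4
        refine (hO1 j0 _ _).1 (ho p.1.1 p'.1.1 j0 ?_ ?_ _ _ _ _ ((hO1 j0 _ _).2 h4))
        · rw [p.2, h2]
        · rw [p'.2, h3]) g hg
    refine PI.mono h1 ?_
    rintro p (hp | ⟨i, d, rfl⟩)
    · left
      obtain ⟨p1, p2⟩ := p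
      obtain ⟨hp1, hp2⟩ := hp
      simp only at hp1 hp2
      subst hp2
      rw [hE0] at hp1
      rcases hp1 with hp1 | hp1
      · refine ⟨(hg.2 _ fun h => h.1 hp1).symm, fun j q hq d h => ?_⟩
        exact hC.out j q hq d (h ▸ hp1)
      · exact ⟨(hgX _ hp1).symm, (hS.sub hp1).2⟩
    · rcases hji : j i with j0 | j0
      · right
        exact ⟨⟨(i, j0), hji⟩, Fin.cast (c1 ⟨(i, j0), hji⟩).symm d, rfl⟩
      · left
        have h2 := (hA2 _ _).1 ((aa_inr sh M c _ _ hji _).1 (hq i).1)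
        have h3 := h2.2.1 (Fin.cast (c2 ⟨(i, j0), hji⟩).symm d)
        refine ⟨?_, ?_⟩
        · exact (hgq ⟨(i, j0), hji⟩ (Fin.cast (c2 ⟨(i, j0), hji⟩).symm d)).symm
        · exact h3.1.2
  · intro j
    refine ⟨fun i d => F (Sum.inr (Sum.inr (Sum.inr (Sum.inl ⟨j, (i, d)⟩)))), ?_, ?_⟩
    · intro i
      have e1 : (fun d => c (F (Sum.inr (Sum.inr (Sum.inr (Sum.inl ⟨j, (i, d)⟩)))))) = ρ1 j i :=
        funext fun d => hF _
      rw [e1]
      exact (hA1 j _).2 (hρ1 j i)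
    · intro i i' hi d d'
      rw [hF, hF]
      exact (hO1 j _ _).2 (hρ1' j i i' hi d d')
  · intro j
    refine ⟨fun i d => F (Sum.inr (Sum.inr (Sum.inr (Sum.inr (Sum.inr ⟨j, (i, d)⟩))))), ?_, ?_⟩
    · intro i
      have e1 : (fun d => c (F (Sum.inr (Sum.inr (Sum.inr (Sum.inr (Sum.inr ⟨j, (i, d)⟩))))))) =
          ρ2 j i := funext fun d => hF _
      rw [e1]
      exact (hA2 j _).2 (hρ2 j i)
    · intro i i' hi d d'
      rw [hF, hF]
      exact hρ2' j i i' hi d d'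

end Pool.H17.CB
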