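import Pool.Agent.H17.CB.Def
import Pool.Agent.H5.AC.Fm

/-!
# The chain part
-/

set_option autoImplicit false

namespace Pool.H17.CB

open Set Pool.H62.VT Pool.H22.CO Pool.H5.AA
open Pool.H5.AC hiding CfR

variable {a : ℕ → ℕ} {r : ℕ}

/-- admissible enumerations -/
def A1' (M : Str a) (E : Set ℕ) {s l : ℕ} (u v : Fin s → ℕ) (w : Fin l → ℕ) (q : Fin s → ℕ) : Prop :=
  ∃ q', CfR M E u v w q q' ∨ CfR M E u v w q' q

/-- order of the cells -/
def O1' (M : Str a) (E : Set ℕ) {s l : ℕ} (u v : Fin s → ℕ) (w : Fin l → ℕ) (p p' : ℕ) : Prop :=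
  ∃ q q', CfR M E u v w q q' ∧ (∃ d, q d = p) ∧ ∃ d, q' d = p'

/-- the points outside `E` and the chain cells -/
def D1' (M : Str a) (E : Set ℕ) {n : ℕ} (s l : Fin n → ℕ) (u v : ∀ j, Fin (s j) → ℕ)
    (w : ∀ j, Fin (l j) → ℕ) : Set ℕ :=
  {y | y ∉ E ∧ ∀ j q, A1' M E (u j) (v j) (w j) q → ∀ d, q d ≠ y}

/-- chain part of `M` -/
structure CP (M : Str a) (E : Set ℕ) {n : ℕ} (s l : Fin n → ℕ) (u v : ∀ j, Fin (s j) → ℕ)
    (w : ∀ j, Fin (l j) → ℕ) : Prop where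
  fin : E.Finite
  pos : ∀ j, 0 < s j
  inj : ∀ j q, A1' M E (u j) (v j) (w j) q → Function.Injective q
  out : ∀ j q, A1' M E (u j) (v j) (w j) q → ∀ d, q d ∉ E
  dis : ∀ j q j' q', A1' M E (u j) (v j) (w j) q → A1' M E (u j') (v j') (w j') q' →
    (∃ d d', q d = q' d') → j = j' ∧ range q = range q'
  lab : ∀ j q q' (γ : Equiv.Perm (Fin (s j))), A1' M E (u j) (v j) (w j) q →
    A1' M E (u j) (v j) (w j) (fun d => q (γ d)) → A1' M E (u j) (v j) (w j) q' →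
    A1' M E (u j) (v j) (w j) (fun d => q' (γ d))
  oeq : ∀ j q q' d e d' e', A1' M E (u j) (v j) (w j) q → A1' M E (u j) (v j) (w j) q' →
    O1' M E (u j) (v j) (w j) (q d) (q' d') → O1' M E (u j) (v j) (w j) (q e) (q' e')
  irr : ∀ j q d e, A1' M E (u j) (v j) (w j) q → ¬ O1' M E (u j) (v j) (w j) (q d) (q e)
  tr : ∀ j p p' p'', O1' M E (u j) (v j) (w j) p p' → O1' M E (u j) (v j) (w j) p' p'' →
    O1' M E (u j) (v j) (w j) p p''
  tot : ∀ j q q' d d', A1' M E (u j) (v j) (w j) q → A1' M E (u j) (v j) (w j) q' →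
    range q ≠ range q' → O1' M E (u j) (v j) (w j) (q d) (q' d') ∨
      O1' M E (u j) (v j) (w j) (q' d') (q d)
  /-- there are increasing sequences of cells of every length -/
  inf : ∀ j (r : ℕ), ∃ ρ : Fin r → Fin (s j) → ℕ, (∀ i, A1' M E (u j) (v j) (w j) (ρ i)) ∧
    ∀ i i', i < i' → ∀ d d', O1' M E (u j) (v j) (w j) (ρ i d) (ρ i' d')
  rest : HCl M (D1' M E s l u v w)
  /-- order preserving moves of the cells, together with automorphisms which move only the rest -/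
  free : ∀ (ι : Type) [Finite ι] (j : ι → Fin n) (q q' : ∀ i, Fin (s (j i)) → ℕ),
    (∀ i, A1' M E (u (j i)) (v (j i)) (w (j i)) (q i) ∧
      A1' M E (u (j i)) (v (j i)) (w (j i)) (q' i)) →
    (∀ i i', i ≠ i' → ∀ d d', q i d ≠ q i' d') → (∀ i i', i ≠ i' → ∀ d d', q' i d ≠ q' i' d') →
    (∀ i i' j0, j i = j0 → j i' = j0 → ∀ d d' e e',
      O1' M E (u j0) (v j0) (w j0) (q i d) (q i' d') →
      O1' M E (u j0) (v j0) (w j0) (q' i e) (q' i' e')) →
    ∀ g ∈ Au M (D1' M E s l u v w),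
    PI M M ({p | p.2 = g p.1 ∧ ∀ j q, A1' M E (u j) (v j) (w j) q → ∀ d, q d ≠ p.1} ∪
      {p | ∃ i d, p = (q i d, q' i d)})

/-- PROOF. `Pool.H5.AC.ur`; the families are the nonempty `C j` (infinite). By the equivalence for `CfR`
(and another cell of the infinite family) `A1' q` iff `q` is the image of `u` under an admissible
matching with a cell; `O1' p p'` iff the cells of `p`, `p'` are in the relation `lt`. `lab`: composition
and inverse of admissible matchings (`hom`, `comp`, finiteness). `D1' = D0 E C`; `HCl.cofin`. `free`: finitary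
(`Pool.H5.AA.pi_of_fin`), `ST.free` with `p0` a finite part of `g`. -/
theorem chain_part (har : ∀ n, a n ≤ r) (hr : 2 ≤ r) (M : Str a)
    (hW : ¬ Pool.H22.VC.Wild (Pool.H22.VN.cod r M) univ) :
    ∃ (E : Set ℕ) (n : ℕ) (s l : Fin n → ℕ) (u v : ∀ j, Fin (s j) → ℕ) (w : ∀ j, Fin (l j) → ℕ),
      CP M E s l u v w := by
  classical
  obtain ⟨n0, E, C, lt, B, hST, hH, hinv, hfam⟩ := Pool.H5.AC.ur2 har hr M hW
  obtain ⟨n, ⟨e⟩⟩ := Finite.exists_equiv_fin {j : Fin n0 // C j ≠ ∅}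
  have hf : ∀ i : Fin n, ∃ (s l : ℕ) (u v : Fin s → ℕ) (w : Fin l → ℕ),
      Fm M E C lt B (e.symm i).1 u v w := by
    intro i
    rcases hfam (e.symm i).1 with h | ⟨h1, s, l, u, v, w, h2, h3, h4⟩
    · exact absurd h (e.symm i).2
    · exact ⟨s, l, u, v, w, h1, h2, h3, h4⟩
  choose s l u v w hF using hf
  have hA : ∀ j q, A1' M E (u j) (v j) (w j) q ↔ ∃ S, Adm C B (e.symm j).1 (u j) q S :=
    fun j q => adm_iff hST (hF j) q
  have hO : ∀ j p p', O1' M E (u j) (v j) (w j) p p' ↔ ∃ S ∈ C (e.symm j).1,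
      ∃ S' ∈ C (e.symm j).1, lt (e.symm j).1 S S' ∧ p ∈ S ∧ p' ∈ S' :=
    fun j p p' => ord_iff hST (hF j) p p'
  -- cells of a family with a common point are equal
  have hsame : ∀ j S S' y, S ∈ C j → S' ∈ C j → y ∈ S → y ∈ S' → S = S' :=
    fun j S S' y h1 h2 h3 h4 => (hST.dj j j S S' h1 h2 ⟨y, h3, h4⟩).2
  have hD : D1' M E s l u v w = D0 E C := by
    ext y
    constructor
    · rintro ⟨h1, h2⟩
      refine ⟨h1, fun j S hS hy => ?_⟩
      have hne : C j ≠ ∅ := fun h => by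
        rw [h] at hS
        exact hS
      obtain ⟨i, hi⟩ : ∃ i, e.symm i = ⟨j, hne⟩ := ⟨e ⟨j, hne⟩, e.symm_apply_apply _⟩
      have hS' : S ∈ C (e.symm i).1 := by
        rw [hi]
        exact hS
      obtain ⟨q, hq⟩ := exists_adm hST (hF i) hS'
      obtain ⟨d, hd⟩ := hq.surj hy
      exact h2 i q ((hA i q).2 ⟨S, hq⟩) d hd
    · rintro ⟨h1, h2⟩
      refine ⟨h1, fun j q hq d hd => ?_⟩
      obtain ⟨S, hS⟩ := (hA j q).1 hq
      exact h2 _ S hS.1 (hd ▸ hS.mem d)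
  refine ⟨E, n, s, l, u, v, w, ?_⟩
  refine { fin := hST.finE, pos := ?_, inj := ?_, out := ?_, dis := ?_, lab := ?_, oeq := ?_
           irr := ?_, tr := ?_, tot := ?_, inf := ?_, rest := hD ▸ hH, free := ?_ }
  · intro j
    obtain ⟨y, hy⟩ := hST.ne _ _ (hF j).mem
    obtain ⟨d, -⟩ := mem_im.1 hy
    exact Nat.lt_of_le_of_lt (Nat.zero_le _) d.2
  · intro j q hq
    obtain ⟨S, hS⟩ := (hA j q).1 hq
    exact hS.inj hST (hF j)
  · intro j q hq d
    obtain ⟨S, hS⟩ := (hA j q).1 hq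
    exact hST.dE _ S hS.1 _ (hS.mem d)
  · rintro j q j' q' hq hq' ⟨d, d', hd⟩
    obtain ⟨S, hS⟩ := (hA j q).1 hq
    obtain ⟨S', hS'⟩ := (hA j' q').1 hq'
    obtain ⟨h1, h2⟩ := hST.dj _ _ S S' hS.1 hS'.1 ⟨q d, hS.mem d, hd ▸ hS'.mem d'⟩
    refine ⟨e.symm.injective (Subtype.ext h1), ?_⟩
    rw [hS.ran, hS'.ran, h2]
  · intro j q q' γ hq hqγ hq'
    obtain ⟨S, hS⟩ := (hA j q).1 hq
    obtain ⟨S1, hS1⟩ := (hA j _).1 hqγ
    obtain ⟨S', hS'⟩ := (hA j q').1 hq'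
    exact (hA j _).2 ⟨S', adm_lab hST (hF j) hinv hS hS1 hS'⟩
  · intro j q q' d f d' f' hq hq' h
    obtain ⟨S, hS⟩ := (hA j q).1 hq
    obtain ⟨S', hS'⟩ := (hA j q').1 hq'
    obtain ⟨T, hT, T', hT', hlt, h1, h2⟩ := (hO j _ _).1 h
    have e1 := hsame _ T S _ hT hS.1 h1 (hS.mem d)
    have e2 := hsame _ T' S' _ hT' hS'.1 h2 (hS'.mem d')
    subst e1
    subst e2
    exact (hO j _ _).2 ⟨T, hT, T', hT', hlt, hS.mem f, hS'.mem f'⟩
  · intro j q d f hq h
    obtain ⟨S, hS⟩ := (hA j q).1 hq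
    obtain ⟨T, hT, T', hT', hlt, h1, h2⟩ := (hO j _ _).1 h
    have e1 := hsame _ T S _ hT hS.1 h1 (hS.mem d)
    have e2 := hsame _ T' S _ hT' hS.1 h2 (hS.mem f)
    subst e1
    subst e2
    exact hST.irr _ _ hT hlt
  · intro j p p' p'' h h'
    obtain ⟨T, hT, T', hT', hlt, h1, h2⟩ := (hO j _ _).1 h
    obtain ⟨U, hU, U', hU', hlt', h3, h4⟩ := (hO j _ _).1 h'
    have e1 := hsame _ T' U _ hT' hU h2 h3
    subst e1
    exact (hO j _ _).2 ⟨T, hT, U', hU', hST.tr _ T hT T' hT' U' hU' hlt hlt', h1, h4⟩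
  · intro j q q' d d' hq hq' hne
    obtain ⟨S, hS⟩ := (hA j q).1 hq
    obtain ⟨S', hS'⟩ := (hA j q').1 hq'
    rcases hST.tot _ S hS.1 S' hS'.1 (fun h => hne (by rw [hS.ran, hS'.ran, h])) with h | h
    · exact Or.inl ((hO j _ _).2 ⟨S, hS.1, S', hS'.1, h, hS.mem d, hS'.mem d'⟩)
    · exact Or.inr ((hO j _ _).2 ⟨S', hS'.1, S, hS.1, h, hS'.mem d', hS.mem d⟩)
  · intro j r
    obtain ⟨T, hT, hlt⟩ := exists_incr_cells hST (hF j) r
    choose ρ hρ using fun i => exists_adm hST (hF j) (hT i)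
    exact ⟨ρ, fun i => (hA j _).2 ⟨T i, hρ i⟩, fun i i' hii d d' =>
      (hO j _ _).2 ⟨T i, hT i, T i', hT i', hlt i i' hii, (hρ i).mem d, (hρ i').mem d'⟩⟩
  · -- moves
    intro ι _ j q q' hqq hdis hdis' hord g hg
    rw [hD] at hg
    choose S hS using fun i => (hA (j i) (q i)).1 (hqq i).1
    choose S' hS' using fun i => (hA (j i) (q' i)).1 (hqq i).2
    have hgD : ∀ y ∈ D0 E C, g y ∈ D0 E C := by
      intro y hy
      by_contra hcon
      have h1 := hg.2 _ hcon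
      rw [g.injective h1] at hcon
      exact hcon hy
    apply pi_of_fin
    intro Q hQ hQf
    have hm : ∀ i, MtS (mt (q i) (q' i)) (S i) (S' i) ∧ B (e.symm (j i)).1 (mt (q i) (q' i)) :=
      fun i => mts_two hST (hF (j i)) hinv (hS i) (hS' i)
    have h0 : ∀ i, ∃ d : Fin (s (j i)), True := by
      intro i
      obtain ⟨y, hy⟩ := hST.ne _ _ (hS i).1
      obtain ⟨d, -⟩ := (hS i).surj hy
      exact ⟨d, trivial⟩
    have hfree := hST.free {p | p ∈ Q ∧ p.1 ∈ D0 E C ∧ p.2 = g p.1} ι (fun i => (e.symm (j i)).1)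
      S S' (fun i => mt (q i) (q' i)) (hQf.subset fun p hp => hp.1) inferInstance (by
        refine (pi_of_au hg).mono ?_
        rintro p (⟨h1, h2⟩ | ⟨-, -, h1⟩)
        · refine ⟨mem_univ _, ?_⟩
          rw [hg.2 p.1 fun h => h.1 h1]
          exact h2.symm
        · exact ⟨mem_univ _, h1⟩) (by
        rintro p ⟨-, h1, h2⟩
        refine ⟨h1, ?_⟩
        rw [h2]
        exact hgD _ h1) (fun i => ⟨(hS i).1, (hS' i).1, (hm i).1, (hm i).2⟩) (by
        intro i i' hne h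
        obtain ⟨d, -⟩ := h0 i
        have h1 := (hS i).mem d
        rw [h] at h1
        obtain ⟨d', hd'⟩ := (hS i').surj h1
        exact hdis i i' hne d d' hd'.symm) (by
        intro i i' hj hlt
        have hjj : j i = j i' := e.symm.injective (Subtype.ext hj)
        obtain ⟨d, -⟩ := h0 i
        obtain ⟨d', -⟩ := h0 i'
        have h1 := hord i i' (j i) rfl hjj.symm d d' d d' ((hO _ _ _).2 ⟨S i, (hS i).1, S i',
          hj ▸ (hS i').1, hlt, (hS i).mem d, (hS i').mem d'⟩)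
        obtain ⟨T, hT, T', hT', hlt', h2, h3⟩ := (hO _ _ _).1 h1
        have e1 := hsame _ T (S' i) _ hT (hS' i).1 h2 ((hS' i).mem d)
        have e2 := hsame _ T' (S' i') _ hT' (hj ▸ (hS' i').1) h3 ((hS' i').mem d')
        rw [e1, e2] at hlt'
        exact hlt')
    refine hfree.mono ?_
    intro p hp
    rcases hQ hp with ⟨h1, h2⟩ | ⟨i, d, rfl⟩
    · left
      by_cases hE : p.1 ∈ E
      · left
        refine ⟨hE, ?_⟩
        rw [h1, hg.2 p.1 fun h => h.1 hE]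
      · right
        refine ⟨hp, ?_, h1⟩
        rw [← hD]
        exact ⟨hE, h2⟩
    · exact Or.inr (mem_iUnion.2 ⟨i, d, rfl⟩)

end Pool.H17.CB
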