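import Pool.Agent.H17.CB.Dec
import Pool.Agent.H17.CB.Cdg
import Pool.Agent.H17.CB.Clg
import Pool.Agent.H17.CB.Gd
import Pool.Agent.H17.TD.Wp
import Pool.Agent.H63.TB.Few
import Pool.Agent.H63.MQ.TFew

/-!
# The structures with bounded arities which are not wild form a tame class
-/

set_option autoImplicit false

namespace Pool.H17.CB

open Set Pool.H62.VT Pool.H63.MQ Pool.H22.CO

variable {a : ℕ → ℕ} {r : ℕ}

theorem tame_nonwild (har : ∀ n, a n ≤ r) (hr : 2 ≤ r) :
    Tame {x : Str a | ¬ Pool.H22.VC.Wild (Pool.H22.VN.cod r (nu x)) univ} := by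
  have h1 : Tame (⋃ p : Σ k : ℕ, Sh k, Pool.H27.SP.Coded
      {y : Str bb | ∃ eq P lt, Pool.H63.TB.CL y eq P lt} (cE (a := a) p.2) (cD p.2)) :=
    Pool.H63.TB.tame_iUnion fun p => Pool.H27.SP.tame_coded (Pool.H63.TB.tame_cl bb) (cdg p.2)
  refine h1.mono fun x hx => ?_
  obtain ⟨k, s, c, h⟩ := good har hr (nu x) hx
  exact mem_iUnion.2 ⟨⟨k, s⟩, c, clg h, dec har h⟩

/-- the structures with few substructures (unary relations forgotten), bounded arities -/
theorem tame_few_all (har : ∀ n, a n ≤ r) : Tame {y : Str a | Pool.H17.HS.Few y} := by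
  refine (tame_nonwild (r := max r 2) (fun n => (har n).trans (le_max_left _ _))
    (le_max_right _ _)).mono fun x hx => ?_
  exact Pool.H63.TB.few_not_wild hx

end Pool.H17.CB
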