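import Pool.Agent.H17.CB.Def

/-!
# Reading the code; cells
-/

set_option autoImplicit false

namespace Pool.H17.CB

open Set Pool.H62.VT Pool.H63.MQ Pool.H22.CO

variable {a : ℕ → ℕ} {k r : ℕ} {s : Sh k} {x M : Str a} {c : Fin k → ℕ}

theorem bb_pair (m e : ℕ) : bb (Nat.pair m e) = m := by simp [bb]

theorem Sm.uniq {m m' : ℕ} {t : Fin m → ℕ} {q q' : Fin m' → ℕ} (h : Sm t q) (h' : Sm t q') :
    q = q' := by
  obtain ⟨h0, h1⟩ := h
  subst h0
  funext i
  rw [← h1 i i rfl, h'.2 i i rfl]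

/-- a tuple as argument of the symbol `pair m e` -/
def tt {m : ℕ} (q : Fin m → ℕ) (e : ℕ) : Fin (bb (Nat.pair m e)) → ℕ :=
  fun i => q (Fin.cast (bb_pair m e) i)

theorem sm_tt {m : ℕ} (q : Fin m → ℕ) (e : ℕ) : Sm (tt q e) q :=
  ⟨bb_pair m e, fun _ _ h => congrArg q (Fin.ext h)⟩

theorem Sm.eq_tt {m e : ℕ} {q : Fin m → ℕ} {t : Fin (bb (Nat.pair m e)) → ℕ} (h : Sm t q) :
    t = tt q e := by
  funext i
  exact h.2 i (Fin.cast (bb_pair m e) i) rfl

theorem y_true {n : ℕ} {t : Fin (bb n) → ℕ} :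
    (cE s (x, c)).1 n t = true ↔ Rl s (nu x) c n t := by
  simp only [cE, decide_eq_true_eq]

theorem rl1 {j : Fin s.n1} {q : Fin (s.s1 j) → ℕ} :
    Rl s M c (Nat.pair (s.s1 j) (3 * j)) (tt q _) ↔ A1 s M c j q := by
  constructor
  · rintro (⟨j', h, q', hq, hs⟩ | ⟨j', h, -⟩ | ⟨j', h, -⟩)
    · rw [Nat.unpair_pair] at h
      have e1 : j' = j := Fin.ext (by simp only at h; omega)
      subst e1
      exact (sm_tt q _).uniq hs ▸ hq
    · rw [Nat.unpair_pair] at h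
      simp only at h
      omega
    · rw [Nat.unpair_pair] at h
      simp only at h
      omega
  · intro h
    exact Or.inl ⟨j, by rw [Nat.unpair_pair], q, h, sm_tt q _⟩

theorem rl2 {j : Fin s.n2} {q : Fin (s.s2 j) → ℕ} :
    Rl s M c (Nat.pair (s.s2 j) (3 * j + 2)) (tt q _) ↔ A2 s M c j q := by
  constructor
  · rintro (⟨j', h, -⟩ | ⟨j', h, -⟩ | ⟨j', h, q', hq, hs⟩)
    · rw [Nat.unpair_pair] at h
      simp only at h
      omega
    · rw [Nat.unpair_pair] at h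
      simp only at h
      omega
    · rw [Nat.unpair_pair] at h
      have e1 : j' = j := Fin.ext (by simp only at h; omega)
      subst e1
      exact (sm_tt q _).uniq hs ▸ hq
  · intro h
    exact Or.inr (Or.inr ⟨j, by rw [Nat.unpair_pair], q, h, sm_tt q _⟩)

theorem rlO {j : Fin s.n1} {q : Fin 2 → ℕ} :
    Rl s M c (Nat.pair 2 (3 * j + 1)) (tt q _) ↔ O1 s M c j (q 0) (q 1) := by
  constructor
  · rintro (⟨j', h, -⟩ | ⟨j', h, q', hq, hs⟩ | ⟨j', h, -⟩)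
    · rw [Nat.unpair_pair] at h
      simp only at h
      omega
    · rw [Nat.unpair_pair] at h
      have e1 : j' = j := Fin.ext (by simp only at h; omega)
      subst e1
      exact (sm_tt q _).uniq hs ▸ hq
    · rw [Nat.unpair_pair] at h
      simp only at h
      omega
  · intro h
    exact Or.inr (Or.inl ⟨j, by rw [Nat.unpair_pair], q, h, sm_tt q _⟩)

theorem y1_iff {j : Fin s.n1} {q : Fin (s.s1 j) → ℕ} :
    Y1 s (cE s (x, c)).1 j q ↔ A1 s (nu x) c j q := by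
  constructor
  · rintro ⟨t, h1, h2⟩
    have e1 := h2.eq_tt
    subst e1
    exact rl1.1 (y_true.1 h1)
  · intro h
    exact ⟨tt q _, y_true.2 (rl1.2 h), sm_tt q _⟩

theorem y2_iff {j : Fin s.n2} {q : Fin (s.s2 j) → ℕ} :
    Y2 s (cE s (x, c)).1 j q ↔ A2 s (nu x) c j q := by
  constructor
  · rintro ⟨t, h1, h2⟩
    have e1 := h2.eq_tt
    subst e1
    exact rl2.1 (y_true.1 h1)
  · intro h
    exact ⟨tt q _, y_true.2 (rl2.2 h), sm_tt q _⟩

theorem yy_iff {j : s.J} {q : Fin (s.sz j) → ℕ} :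
    YY s (cE s (x, c)).1 j q ↔ AA s (nu x) c j q := by
  rcases j with j | j
  · exact y1_iff
  · exact y2_iff

theorem pi_A1 {P : Set (ℕ × ℕ)} (hP : PI (cE s (x, c)).1 (cE s (x, c)).1 P) {j : Fin s.n1}
    {q b : Fin (s.s1 j) → ℕ} (hq : A1 s (nu x) c j q) (h : ∀ d, (q d, b d) ∈ P) :
    A1 s (nu x) c j b := by
  have h1 := hP.1 (Nat.pair (s.s1 j) (3 * j)) (fun i => (tt q _ i, tt b _ i)) fun i => h _
  exact rl1.1 (y_true.1 (h1.symm.trans (y_true.2 (rl1.2 hq))))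

theorem pi_A2 {P : Set (ℕ × ℕ)} (hP : PI (cE s (x, c)).1 (cE s (x, c)).1 P) {j : Fin s.n2}
    {q b : Fin (s.s2 j) → ℕ} (hq : A2 s (nu x) c j q) (h : ∀ d, (q d, b d) ∈ P) :
    A2 s (nu x) c j b := by
  have h1 := hP.1 (Nat.pair (s.s2 j) (3 * j + 2)) (fun i => (tt q _ i, tt b _ i)) fun i => h _
  exact rl2.1 (y_true.1 (h1.symm.trans (y_true.2 (rl2.2 hq))))

/-- a partial isomorphism of the code preserves enumerations -/
theorem pi_AA {P : Set (ℕ × ℕ)} (hP : PI (cE s (x, c)).1 (cE s (x, c)).1 P) {j : s.J}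
    {q b : Fin (s.sz j) → ℕ} (hq : AA s (nu x) c j q) (h : ∀ d, (q d, b d) ∈ P) :
    AA s (nu x) c j b := by
  rcases j with j | j
  · exact pi_A1 hP hq h
  · exact pi_A2 hP hq h

/-- a partial isomorphism of the code preserves the orders -/
theorem pi_O1 {P : Set (ℕ × ℕ)} (hP : PI (cE s (x, c)).1 (cE s (x, c)).1 P) {j : Fin s.n1}
    {p p' b b' : ℕ} (hq : O1 s (nu x) c j p p') (h : (p, b) ∈ P) (h' : (p', b') ∈ P) :
    O1 s (nu x) c j b b' := by
  have h0 : ∀ e : Fin 2, ((![p, p'] : Fin 2 → ℕ) e, (![b, b'] : Fin 2 → ℕ) e) ∈ P := by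
    intro e
    fin_cases e
    · exact h
    · exact h'
  have h1 := hP.1 (Nat.pair 2 (3 * j + 1))
    (fun i => (tt (![p, p'] : Fin 2 → ℕ) _ i, tt (![b, b'] : Fin 2 → ℕ) _ i)) fun i => h0 _
  have h2 : (cE s (x, c)).1 (Nat.pair 2 (3 * j + 1)) (tt (![p, p'] : Fin 2 → ℕ) _) = true :=
    y_true.2 (rlO.2 hq)
  have h3 : (cE s (x, c)).1 (Nat.pair 2 (3 * j + 1)) (tt (![b, b'] : Fin 2 → ℕ) _) = true :=
    h1.symm.trans h2
  exact rlO.1 (y_true.1 h3)

theorem cf_l {j : Fin s.n1} {q q' : Fin (s.s1 j) → ℕ} (h : Cf s M c j q q') : A1 s M c j q :=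
  ⟨q', Or.inl h⟩

theorem cf_r {j : Fin s.n1} {q q' : Fin (s.s1 j) → ℕ} (h : Cf s M c j q q') : A1 s M c j q' :=
  ⟨q, Or.inr h⟩

theorem o1_ex {j : Fin s.n1} {p p' : ℕ} (h : O1 s M c j p p') :
    (∃ q, A1 s M c j q ∧ ∃ d, q d = p) ∧ ∃ q, A1 s M c j q ∧ ∃ d, q d = p' := by
  obtain ⟨q, q', h1, h2, h3⟩ := h
  exact ⟨⟨q, cf_l h1, h2⟩, ⟨q', cf_r h1, h3⟩⟩

/-! ### Cells -/

/-- the cells -/
def Ce (s : Sh k) (M : Str a) (c : Fin k → ℕ) : Type :=
  {S : Set ℕ // ∃ w : Σ j : s.J, (Fin (s.sz j) → ℕ), AA s M c w.1 w.2 ∧ range w.2 = S}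

namespace Ce

variable (S : Ce s M c)

/-- the family of a cell -/
noncomputable def j : s.J := (Classical.choose S.2).1

/-- the chosen enumeration of a cell -/
noncomputable def q : Fin (s.sz S.j) → ℕ := (Classical.choose S.2).2

theorem aa : AA s M c S.j S.q := (Classical.choose_spec S.2).1

theorem range_q : range S.q = S.1 := (Classical.choose_spec S.2).2

theorem mem (d : Fin (s.sz S.j)) : S.q d ∈ S.1 := S.range_q ▸ mem_range_self d

theorem ex {p : ℕ} (h : p ∈ S.1) : ∃ d, S.q d = p := by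
  rwa [← S.range_q] at h

end Ce

theorem Good.nonempty {M : Str a} (h : Good s M c r) (S : Ce s M c) : S.1.Nonempty :=
  ⟨_, S.mem ⟨0, h.pos _⟩⟩

/-- an enumeration which meets a cell enumerates it -/
theorem Good.eq_cell {M : Str a} (h : Good s M c r) (S : Ce s M c) {j : s.J}
    {q : Fin (s.sz j) → ℕ} (hq : AA s M c j q) {d : Fin (s.sz j)} (hd : q d ∈ S.1) :
    j = S.j ∧ range q = S.1 := by
  obtain ⟨e, he⟩ := S.ex hd
  obtain ⟨h1, h2⟩ := h.dis j q S.j S.q hq S.aa ⟨d, e, he.symm⟩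
  exact ⟨h1, h2.trans S.range_q⟩

theorem Good.cell_eq {M : Str a} (h : Good s M c r) {S S' : Ce s M c} {p : ℕ} (hp : p ∈ S.1)
    (hp' : p ∈ S'.1) : S = S' := by
  obtain ⟨e, he⟩ := S.ex hp
  have := h.eq_cell S' S.aa (he ▸ hp')
  exact Subtype.ext (S.range_q.symm.trans this.2)

theorem Good.cell {M : Str a} (h : Good s M c r) {p : ℕ} (hp : p ∉ E0 s c) :
    ∃ S : Ce s M c, p ∈ S.1 := by
  obtain ⟨j, q, h1, d, hd⟩ := h.cov p hp
  exact ⟨⟨range q, ⟨⟨j, q⟩, h1, rfl⟩⟩, ⟨d, hd⟩⟩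

theorem Good.out' {M : Str a} (h : Good s M c r) (S : Ce s M c) {p : ℕ} (hp : p ∈ S.1) :
    p ∉ E0 s c := by
  obtain ⟨d, rfl⟩ := S.ex hp
  exact h.out _ _ S.aa d

/-- the order does not depend on the points of the cells -/
theorem Good.oeq' {M : Str a} (h : Good s M c r) {j j' : s.J} {q : Fin (s.sz j) → ℕ}
    {q' : Fin (s.sz j') → ℕ} (hq : AA s M c j q) (hq' : AA s M c j' q') {j0 : Fin s.n1}
    (hj : j = Sum.inl j0) (hj' : j' = Sum.inl j0) {d e : Fin (s.sz j)} {d' e' : Fin (s.sz j')}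
    (ho : O1 s M c j0 (q d) (q' d')) : O1 s M c j0 (q e) (q' e') := by
  subst hj
  subst hj'
  exact h.oeq j0 q q' d e d' e' hq hq' ho

theorem Good.irr' {M : Str a} (h : Good s M c r) {j0 : Fin s.n1} {p : ℕ}
    (ho : O1 s M c j0 p p) : False := by
  obtain ⟨⟨q, hq, d, rfl⟩, -⟩ := o1_ex ho
  exact h.irr j0 q d d hq ho

/-- two enumerations of the same set differ by a permutation -/
theorem perm_of_range {m : ℕ} {q q' : Fin m → ℕ}
    (hq' : Function.Injective q') (h : range q' = range q) :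
    ∃ γ : Equiv.Perm (Fin m), q' = fun d => q (γ d) := by
  have h1 : ∀ d, ∃ e, q e = q' d := fun d => by
    have : q' d ∈ range q := h ▸ mem_range_self d
    exact this
  choose g hg using h1
  have gi : Function.Injective g := fun d e hde => hq' (by rw [← hg d, ← hg e, hde])
  exact ⟨Equiv.ofBijective g (Finite.injective_iff_bijective.1 gi), funext fun d => (hg d).symm⟩

end Pool.H17.CB
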