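import Pool.Agent.H17.CB.Yc

/-!
# Moves of cells are partial isomorphisms of the code
-/

set_option autoImplicit false

namespace Pool.H17.CB

open Set Pool.H62.VT Pool.H63.MQ Pool.H22.CO

variable {a : ℕ → ℕ} {k r : ℕ} {s : Sh k} {x M : Str a} {c : Fin k → ℕ} {ι : Type}
  {j : ι → s.J} {q q' : ∀ i, Fin (s.sz (j i)) → ℕ}

/-- the position which moves the cells `q i` to `q' i` and fixes the named points -/
def Mv (s : Sh k) (c : Fin k → ℕ) {ι : Type} {j : ι → s.J} (q q' : ∀ i, Fin (s.sz (j i)) → ℕ) :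
    Set (ℕ × ℕ) :=
  idOn (E0 s c) ∪ {p | ∃ i d, p = (q i d, q' i d)}

/-- the cells `q i` can be moved to `q' i` -/
structure Hf (s : Sh k) (M : Str a) (c : Fin k → ℕ) {ι : Type} {j : ι → s.J}
    (q q' : ∀ i, Fin (s.sz (j i)) → ℕ) : Prop where
  A : ∀ i, AA s M c (j i) (q i)
  A' : ∀ i, AA s M c (j i) (q' i)
  d : ∀ i i', i ≠ i' → ∀ d d', q i d ≠ q i' d'
  d' : ∀ i i', i ≠ i' → ∀ d d', q' i d ≠ q' i' d'
  o : ∀ i i' j0, j i = Sum.inl j0 → j i' = Sum.inl j0 → ∀ d d' e e',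
    O1 s M c j0 (q i d) (q i' d') → O1 s M c j0 (q' i e) (q' i' e')
  o' : ∀ i i' j0, j i = Sum.inl j0 → j i' = Sum.inl j0 → ∀ d d' e e',
    O1 s M c j0 (q' i d) (q' i' d') → O1 s M c j0 (q i e) (q i' e')

theorem Hf.symm (H : Hf s M c q q') : Hf s M c q' q :=
  ⟨H.A', H.A, H.d', H.d, H.o', H.o⟩

theorem mv_mem {u v : ℕ} (h : (u, v) ∈ Mv s c q q') : (v, u) ∈ Mv s c q' q := by
  rcases h with ⟨h1, h2⟩ | ⟨i, d, h1⟩
  · have e : u = v := h2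
    subst e
    exact Or.inl ⟨h1, rfl⟩
  · obtain ⟨rfl, rfl⟩ := Prod.mk.inj h1
    exact Or.inr ⟨i, d, rfl⟩

theorem mv_ex (h : Good s M c r) (H : Hf s M c q q') {j0 : s.J} {q0 : Fin (s.sz j0) → ℕ}
    (hq0 : AA s M c j0 q0) {d : Fin (s.sz j0)} {b : ℕ} (hb : (q0 d, b) ∈ Mv s c q q') :
    ∃ i e, j0 = j i ∧ range q0 = range (q i) ∧ q0 d = q i e ∧ b = q' i e := by
  rcases hb with ⟨h1, -⟩ | ⟨i, e, h1⟩
  · exact absurd h1 (h.out j0 q0 hq0 d)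
  · obtain ⟨h2, h3⟩ := Prod.mk.inj h1
    obtain ⟨h4, h5⟩ := h.dis j0 q0 (j i) (q i) hq0 (H.A i) ⟨d, e, h2⟩
    exact ⟨i, e, h4, h5, h2, h3⟩

theorem mv_A (h : Good s M c r) (H : Hf s M c q q') {j0 : s.J} {q0 b : Fin (s.sz j0) → ℕ}
    (hq0 : AA s M c j0 q0) (hb : ∀ d, (q0 d, b d) ∈ Mv s c q q') : AA s M c j0 b := by
  obtain ⟨i, e, hj, hr, -, -⟩ := mv_ex h H hq0 (hb ⟨0, h.pos _⟩)
  subst hj
  obtain ⟨γ, hγ⟩ := perm_of_range (h.inj _ _ hq0) hr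
  have h2 : b = fun d => q' i (γ d) := by
    funext d
    obtain ⟨i', e', -, -, h3, h4⟩ := mv_ex h H hq0 (hb d)
    have h5 : q i (γ d) = q i' e' := (congrFun hγ d).symm.trans h3
    have h6 : i' = i := by
      by_contra hne
      exact H.d i i' (fun e => hne e.symm) _ _ h5
    subst h6
    rw [h4, h.inj _ _ (H.A i') h5]
  rw [h2]
  exact h.lab (j i) (q i) (q' i) γ (H.A i) (hγ ▸ hq0) (H.A' i)

theorem mv_O (h : Good s M c r) (H : Hf s M c q q') {j0 : Fin s.n1} {p p' b b' : ℕ}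
    (ho : O1 s M c j0 p p') (hb : (p, b) ∈ Mv s c q q') (hb' : (p', b') ∈ Mv s c q q') :
    O1 s M c j0 b b' := by
  obtain ⟨⟨q1, hq1, d1, rfl⟩, ⟨q2, hq2, d2, rfl⟩⟩ := o1_ex ho
  obtain ⟨i, e, hj, -, h1, rfl⟩ := mv_ex (j0 := Sum.inl j0) h H hq1 hb
  obtain ⟨i', e', hj', -, h1', rfl⟩ := mv_ex (j0 := Sum.inl j0) h H hq2 hb'
  have h1a : q1 d1 = q i e := h1
  have h1b : q2 d2 = q i' e' := h1'
  rw [h1a, h1b] at ho
  exact H.o i i' j0 hj.symm hj'.symm e e' e e' ho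

theorem mv_rl (h : Good s M c r) (H : Hf s M c q q') {n : ℕ} (t : Fin (bb n) → ℕ × ℕ)
    (ht : ∀ i, t i ∈ Mv s c q q') (hr : Rl s M c n fun i => (t i).1) :
    Rl s M c n fun i => (t i).2 := by
  rcases hr with ⟨j0, h1, q0, hq0, h2, h3⟩ | ⟨j0, h1, q0, hq0, h2, h3⟩ |
    ⟨j0, h1, q0, hq0, h2, h3⟩
  · refine Or.inl ⟨j0, h1, fun d => (t (Fin.cast h2.symm d)).2, ?_, h2, ?_⟩
    · refine mv_A (j0 := Sum.inl j0) h H hq0 fun d => ?_
      have h4 : (t (Fin.cast h2.symm d)).1 = q0 d := h3 _ d rfl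
      show (q0 d, (t (Fin.cast h2.symm d)).2) ∈ _
      rw [← h4]
      exact ht _
    · intro i i' hi
      exact congrArg (fun z => (t z).2) (Fin.ext hi)
  · refine Or.inr (Or.inl ⟨j0, h1, fun d => (t (Fin.cast h2.symm d)).2, ?_, h2, ?_⟩)
    · have h4 : ∀ d, (t (Fin.cast h2.symm d)).1 = q0 d := fun d => h3 _ d rfl
      refine mv_O h H hq0 ?_ ?_
      · rw [← h4]
        exact ht _
      · rw [← h4]
        exact ht _
    · intro i i' hi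
      exact congrArg (fun z => (t z).2) (Fin.ext hi)
  · refine Or.inr (Or.inr ⟨j0, h1, fun d => (t (Fin.cast h2.symm d)).2, ?_, h2, ?_⟩)
    · refine mv_A (j0 := Sum.inr j0) h H hq0 fun d => ?_
      have h4 : (t (Fin.cast h2.symm d)).1 = q0 d := h3 _ d rfl
      show (q0 d, (t (Fin.cast h2.symm d)).2) ∈ _
      rw [← h4]
      exact ht _
    · intro i i' hi
      exact congrArg (fun z => (t z).2) (Fin.ext hi)

theorem mv_fun (h : Good s M c r) (H : Hf s M c q q') {u v : ℕ × ℕ} (hu : u ∈ Mv s c q q')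
    (hv : v ∈ Mv s c q q') (he : u.1 = v.1) : u.2 = v.2 := by
  rcases hu with ⟨h1, h2⟩ | ⟨i, d, rfl⟩
  · rcases hv with ⟨h3, h4⟩ | ⟨i, d, rfl⟩
    · rw [← h2, ← h4, he]
    · have h5 : u.1 = q i d := he
      exact absurd (h5 ▸ h1) (h.out _ _ (H.A i) d)
  · rcases hv with ⟨h3, h4⟩ | ⟨i', d', rfl⟩
    · have h5 : q i d = v.1 := he
      exact absurd (h5 ▸ h3) (h.out _ _ (H.A i) d)
    · have h5 : q i d = q i' d' := he
      have h6 : i = i' := by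
        by_contra hne
        exact H.d i i' hne _ _ h5
      subst h6
      rw [h.inj _ _ (H.A i) h5]

theorem mv_PI (h : Good s (nu x) c r) (H : Hf s (nu x) c q q') :
    PI (cE s (x, c)).1 (cE s (x, c)).1 (Mv s c q q') := by
  constructor
  · intro n t ht
    have h1 : Rl s (nu x) c n (fun i => (t i).1) ↔ Rl s (nu x) c n (fun i => (t i).2) :=
      ⟨mv_rl h H t ht, mv_rl h H.symm (fun i => ((t i).2, (t i).1)) fun i => mv_mem (ht i)⟩
    have h2 := (y_true (s := s) (x := x) (c := c) (n := n) (t := fun i => (t i).1)).trans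
      (h1.trans y_true.symm)
    exact Bool.eq_iff_iff.2 h2
  · intro u hu v hv
    exact ⟨mv_fun h H hu hv, mv_fun (u := (u.2, u.1)) (v := (v.2, v.1)) h H.symm
      (mv_mem hu) (mv_mem hv)⟩

theorem mv_cl (h : Good s M c r) (H : Hf s M c q q') {j0 : s.J} {q0 : Fin (s.sz j0) → ℕ}
    (hq0 : AA s M c j0 q0) {d : Fin (s.sz j0)} {b : ℕ} (hb : (q0 d, b) ∈ Mv s c q q')
    (d' : Fin (s.sz j0)) : ∃ b', (q0 d', b') ∈ Mv s c q q' := by
  obtain ⟨i, e, -, hr, -, -⟩ := mv_ex h H hq0 hb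
  have h1 : q0 d' ∈ range (q i) := hr ▸ mem_range_self d'
  obtain ⟨e', he'⟩ := h1
  exact ⟨q' i e', Or.inr ⟨i, e', by rw [he']⟩⟩

end Pool.H17.CB
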